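import Mathlib

open scoped RealInnerProductSpace Topology ContDiff

namespace Pool.Agent.MP_67b65f_an

/-- Euclidean space of dimension `n`. -/
abbrev E (n : ℕ) : Type := EuclideanSpace ℝ (Fin n)

/-- `f` is a smooth local defining function of the open set `Ω` near the boundary point `p`:
`f` vanishes at `p`, has nonzero gradient there, is `C^∞` on an open neighbourhood `U` of `p`,
and `Ω` is `{f < 0}` inside `U`. -/
def IsDefiningAt {n : ℕ} (Ω : Set (E n)) (p : E n) (f : E n → ℝ) : Prop :=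
  f p = 0 ∧ gradient f p ≠ 0 ∧
    ∃ U : Set (E n), IsOpen U ∧ p ∈ U ∧ ContDiffOn ℝ ∞ f U ∧ ∀ x ∈ U, (x ∈ Ω ↔ f x < 0)

/-- `Ω` is a bounded domain (nonempty connected open set) with smooth boundary. -/
structure IsSmoothDomain {n : ℕ} (Ω : Set (E n)) : Prop where
  isOpen : IsOpen Ω
  isConnected : IsConnected Ω
  isBounded : Bornology.IsBounded Ω
  smooth : ∀ p ∈ frontier Ω, ∃ f, IsDefiningAt Ω p f

/-- `ν` is the outer unit normal of `Ω` at the boundary point `p`. -/
def IsOuterNormal {n : ℕ} (Ω : Set (E n)) (p ν : E n) : Prop :=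
  ‖ν‖ = 1 ∧ ∃ f, IsDefiningAt Ω p f ∧ gradient f p = ‖gradient f p‖ • ν

/-- The billiard trajectory in `Ω` starting at `P` with velocity `v`, followed on `[0, T]`.
It has `N` reflections, at the times `t 1 < ⋯ < t N ≤ T`, at the boundary points `q 1, …, q N`;
`u i` is the velocity just after the `i`-th reflection. Between reflections the particle moves
in `Ω` along straight lines; at a reflection the boundary is hit transversally, the tangential
component of the velocity is kept and the normal component is reversed. -/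
structure IsTrajectory {n : ℕ} (Ω : Set (E n)) (P v : E n) (T : ℝ)
    (N : ℕ) (t : ℕ → ℝ) (q u : ℕ → E n) : Prop where
  t_zero : t 0 = 0
  q_zero : q 0 = P
  u_zero : u 0 = v
  t_lt : ∀ i < N, t i < t (i + 1)
  free : ∀ i < N, ∀ s ∈ Set.Ioo (t i) (t (i + 1)), q i + (s - t i) • u i ∈ Ω
  q_succ : ∀ i < N, q (i + 1) = q i + (t (i + 1) - t i) • u i
  q_mem : ∀ i < N, q (i + 1) ∈ frontier Ω
  reflect : ∀ i < N, ∃ ν, IsOuterNormal Ω (q (i + 1)) ν ∧ 0 < ⟪u i, ν⟫ ∧
    u (i + 1) = u i - (2 * ⟪u i, ν⟫) • ν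
  t_le : t N ≤ T
  last : ∀ s ∈ Set.Ioc (t N) T, q N + (s - t N) • u N ∈ Ω

/-- The time-`T` front from `P`: the positions at time `T` of the unit speed trajectories which
start at `P` and are defined on `[0, T]`. -/
def front {n : ℕ} (Ω : Set (E n)) (P : E n) (T : ℝ) : Set (E n) :=
  {X | ∃ (v : E n) (N : ℕ) (t : ℕ → ℝ) (q u : ℕ → E n), ‖v‖ = 1 ∧
    IsTrajectory Ω P v T N t q u ∧ X = q N + (T - t N) • u N}

/-- The fronts from `P` become dense in `Ω` as `t → ∞`. -/
def FrontsBecomeDense {n : ℕ} (Ω : Set (E n)) (P : E n) : Prop :=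
  ∀ ε > 0, ∃ T₀ : ℝ, ∀ T ≥ T₀, ∀ Q ∈ Ω, ∃ X ∈ front Ω P T, dist X Q < ε

end Pool.Agent.MP_67b65f_an
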