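import Pool.Agent.MP_67b65f_an.Paths

open scoped RealInnerProductSpace Topology ContDiff
open Set Filter

namespace Pool.Agent.MP_67b65f_an

variable {n : ℕ}

lemma exists_orthogonal_unit (hn : 2 ≤ n) (e₁ : E n) (he : e₁ ≠ 0) :
    ∃ e₂ : E n, ‖e₂‖ = 1 ∧ ⟪e₁, e₂⟫ = 0 := by
  have h1 := Submodule.finrank_add_finrank_orthogonal (Submodule.span ℝ {e₁})
  rw [finrank_span_singleton he, finrank_euclideanSpace_fin] at h1
  have h2 : (Submodule.span ℝ {e₁})ᗮ ≠ ⊥ := by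
    intro h0
    rw [h0, finrank_bot] at h1
    omega
  obtain ⟨w, hw, hw0⟩ := Submodule.exists_mem_ne_zero_of_ne_bot h2
  have hwn : ‖w‖ ≠ 0 := norm_ne_zero_iff.2 hw0
  refine ⟨(‖w‖)⁻¹ • w, ?_, ?_⟩
  · rw [norm_smul, norm_inv, norm_norm, inv_mul_cancel₀ hwn]
  · rw [real_inner_smul_right, Submodule.mem_orthogonal_singleton_iff_inner_right.1 hw, mul_zero]

/-- Two points different from `c` lie in a plane through `c`, with polar coordinates. -/
lemma exists_polar (hn : 2 ≤ n) {c P Q : E n} (hP : P ≠ c) :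
    ∃ (e₁ e₂ : E n) (ψ : ℝ), OPair e₁ e₂ ∧ P = c + dist P c • e₁ ∧
      Q = c + dist Q c • dirU e₁ e₂ ψ := by
  have hx : P - c ≠ 0 := sub_ne_zero.2 hP
  have hxn : ‖P - c‖ ≠ 0 := norm_ne_zero_iff.2 hx
  set e₁ : E n := (‖P - c‖)⁻¹ • (P - c) with he₁
  have he1n : ‖e₁‖ = 1 := by rw [he₁, norm_smul, norm_inv, norm_norm, inv_mul_cancel₀ hxn]
  have hPe : P = c + dist P c • e₁ := by
    rw [dist_eq_norm, he₁, smul_smul, mul_inv_cancel₀ hxn, one_smul]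
    abel
  have he10 : e₁ ≠ 0 := by
    rw [← norm_ne_zero_iff, he1n]; norm_num
  clear_value e₁
  -- find the second vector
  obtain ⟨e₂, H, a, b, hab⟩ : ∃ e₂ : E n, OPair e₁ e₂ ∧ ∃ a b : ℝ, Q - c = a • e₁ + b • e₂ := by
    by_cases hw : (Q - c) - ⟪e₁, Q - c⟫ • e₁ = 0
    · obtain ⟨e₂, h2, h12⟩ := exists_orthogonal_unit hn e₁ he10
      refine ⟨e₂, ⟨he1n, h2, h12⟩, ⟪e₁, Q - c⟫, 0, ?_⟩
      rw [zero_smul, add_zero]
      exact sub_eq_zero.1 hw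
    · have hwn : ‖(Q - c) - ⟪e₁, Q - c⟫ • e₁‖ ≠ 0 := norm_ne_zero_iff.2 hw
      refine ⟨(‖(Q - c) - ⟪e₁, Q - c⟫ • e₁‖)⁻¹ • ((Q - c) - ⟪e₁, Q - c⟫ • e₁),
        ⟨he1n, ?_, ?_⟩, ⟪e₁, Q - c⟫, ‖(Q - c) - ⟪e₁, Q - c⟫ • e₁‖, ?_⟩
      · rw [norm_smul, norm_inv, norm_norm, inv_mul_cancel₀ hwn]
      · rw [real_inner_smul_right, inner_sub_right _ (Q - c), real_inner_smul_right,
          real_inner_self_eq_norm_sq, he1n]
        ring
      · rw [smul_smul, mul_inv_cancel₀ hwn, one_smul]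
        abel
  have hnorm : ‖Q - c‖ = ‖(⟨a, b⟩ : ℂ)‖ := by
    have h1 : ‖Q - c‖ ^ 2 = a ^ 2 + b ^ 2 := by rw [hab, H.norm_sq_comb]
    have h2 : ‖(⟨a, b⟩ : ℂ)‖ ^ 2 = a ^ 2 + b ^ 2 := by
      rw [Complex.sq_norm, Complex.normSq_mk]; ring
    exact (pow_left_inj₀ (norm_nonneg _) (norm_nonneg _) (by norm_num)).1 (h1.trans h2.symm)
  refine ⟨e₁, e₂, Complex.arg ⟨a, b⟩, H, hPe, ?_⟩
  have h3 := Complex.norm_mul_cos_arg ⟨a, b⟩
  have h4 := Complex.norm_mul_sin_arg ⟨a, b⟩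
  rw [dist_eq_norm, hnorm, dirU, smul_add, smul_smul, smul_smul, h3, h4]
  simp only
  rw [← hab]
  abel

/-- It is enough to prove density point by point. -/
lemma frontsBecomeDense_of_pointwise {Ω : Set (E n)} (hb : Bornology.IsBounded Ω) {P : E n}
    (h : ∀ Q ∈ Ω, ∀ ε > 0, ∃ T₀ : ℝ, ∀ T ≥ T₀, ∃ X ∈ front Ω P T, dist X Q < ε) :
    FrontsBecomeDense Ω P := by
  intro ε hε
  have htb : TotallyBounded Ω := by
    exact (hb.isCompact_closure).totallyBounded.subset subset_closure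
  obtain ⟨t, htΩ, htf, hcov⟩ := totallyBounded_iff_subset.1 htb _
    (Metric.dist_mem_uniformity (half_pos hε))
  have h' : ∀ Q : E n, ∃ T₀ : ℝ, Q ∈ t → ∀ T ≥ T₀, ∃ X ∈ front Ω P T, dist X Q < ε / 2 := by
    intro Q
    by_cases hQ : Q ∈ t
    · obtain ⟨T₀, hT₀⟩ := h Q (htΩ hQ) (ε / 2) (half_pos hε)
      exact ⟨T₀, fun _ => hT₀⟩
    · exact ⟨0, fun h => absurd h hQ⟩
  choose T₀ hT₀ using h'
  obtain ⟨M, hM⟩ := (htf.image T₀).bddAbove
  refine ⟨M, fun T hT Q hQ => ?_⟩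
  have hQc := hcov hQ
  simp only [mem_iUnion] at hQc
  obtain ⟨y, hy, hQy⟩ := hQc
  obtain ⟨X, hX, hXy⟩ := hT₀ y hy T ((hM (mem_image_of_mem _ hy)).trans hT)
  refine ⟨X, hX, ?_⟩
  have hQy' : dist Q y < ε / 2 := hQy
  calc dist X Q ≤ dist X y + dist y Q := dist_triangle _ _ _
    _ < ε / 2 + ε / 2 := by rw [dist_comm y Q]; exact add_lt_add hXy hQy'
    _ = ε := by ring

/-- Closeness of the angle gives closeness of the point. -/
lemma dist_polar_le {e₁ e₂ : E n} (H : OPair e₁ e₂) {c : E n} {ρ x ψ η : ℝ} (hρ : 0 ≤ ρ)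
    {m : ℤ} (h : |x - ψ - 2 * Real.pi * m| ≤ η) :
    dist (c + ρ • dirU e₁ e₂ x) (c + ρ • dirU e₁ e₂ ψ) ≤ ρ * η := by
  rw [dist_add_left, dist_eq_norm, ← smul_sub, norm_smul, Real.norm_eq_abs, abs_of_nonneg hρ]
  apply mul_le_mul_of_nonneg_left _ hρ
  rw [← dirU_add_int_mul_two_pi e₁ e₂ ψ m]
  refine (H.norm_U_sub_U _ _).trans ?_
  rw [show x - (ψ + 2 * Real.pi * m) = x - ψ - 2 * Real.pi * m by ring]
  exact h

lemma pointwise_ball (hn : 2 ≤ n) {c P Q : E n} {R : ℝ} (hP : P ∈ Metric.ball c R) (hPc : P ≠ c)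
    (hQ : Q ∈ Metric.ball c R) (hQc : Q ≠ c) {ε : ℝ} (hε : 0 < ε) :
    ∃ T₀ : ℝ, ∀ T ≥ T₀, ∃ X ∈ front (Metric.ball c R) P T, dist X Q < ε := by
  obtain ⟨e₁, e₂, ψ, H, hPe, hQe⟩ := exists_polar hn (Q := Q) hPc
  set r := dist P c with hr
  set ρ := dist Q c with hρ
  have hr0 : 0 < r := dist_pos.2 hPc
  have hρ0 : 0 < ρ := dist_pos.2 hQc
  have hrR : r < R := hP
  have hρR : ρ < R := hQ
  have hp₀ : 0 < min r ρ := lt_min hr0 hρ0
  have hη : 0 < ε / (2 * ρ) := by positivity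
  obtain ⟨T₀, hT₀⟩ := (twistData_ball (R := R) hp₀ (min_le_left r ρ) (min_le_right r ρ)
    ((min_le_left r ρ).trans hrR.le)).dense hp₀ hη
  refine ⟨T₀, fun T hT => ?_⟩
  obtain ⟨p, hp, k, m, hkT, hkm⟩ := hT₀ T hT ψ
  have hfr := mem_front_ball H (c := c) hp.1 (hp.2.trans_le (min_le_left r ρ))
    (hp.2.trans_le (min_le_right r ρ)) hrR hρR k
  rw [← hPe, hkT] at hfr
  refine ⟨_, hfr, ?_⟩
  have h1 := dist_polar_le H (c := c) hρ0.le hkm
  rw [← hQe] at h1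
  refine lt_of_le_of_lt h1 ?_
  have : ρ * (ε / (2 * ρ)) = ε / 2 := by field_simp
  rw [this]
  linarith

lemma pointwise_shell (hn : 2 ≤ n) {c P Q : E n} {a R : ℝ} (ha0 : 0 < a)
    (hP : P ∈ shell c a R) (hQ : Q ∈ shell c a R) {ε : ℝ} (hε : 0 < ε) :
    ∃ T₀ : ℝ, ∀ T ≥ T₀, ∃ X ∈ front (shell c a R) P T, dist X Q < ε := by
  have hPc : P ≠ c := by
    rintro rfl
    have := hP.1
    rw [dist_self] at this
    linarith
  obtain ⟨e₁, e₂, ψ, H, hPe, hQe⟩ := exists_polar hn (Q := Q) hPc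
  set r := dist P c with hr
  set ρ := dist Q c with hρ
  have har : a < r := hP.1
  have haρ : a < ρ := hQ.1
  have hrR : r < R := hP.2
  have hρR : ρ < R := hQ.2
  have hρ0 : 0 < ρ := ha0.trans haρ
  have hη : 0 < ε / (2 * ρ) := by positivity
  obtain ⟨T₀, hT₀⟩ := (twistData_shell (R := R) ha0 har haρ (har.trans hrR)).dense ha0 hη
  refine ⟨T₀, fun T hT => ?_⟩
  obtain ⟨p, hp, k, m, hkT, hkm⟩ := hT₀ T hT ψ
  have hfr := mem_front_shell H (c := c) hp.1 hp.2 har haρ hrR hρR k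
  rw [← hPe, hkT] at hfr
  refine ⟨_, hfr, ?_⟩
  have h1 := dist_polar_le H (c := c) hρ0.le hkm
  rw [← hQe] at h1
  refine lt_of_le_of_lt h1 ?_
  have : ρ * (ε / (2 * ρ)) = ε / 2 := by field_simp
  rw [this]
  linarith

theorem frontsBecomeDense_ball (hn : 2 ≤ n) {c P : E n} {R : ℝ} (hP : P ∈ Metric.ball c R)
    (hPc : P ≠ c) : FrontsBecomeDense (Metric.ball c R) P := by
  apply frontsBecomeDense_of_pointwise Metric.isBounded_ball
  intro Q hQ ε hε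
  by_cases hQc : Q = c
  · -- approximate the centre
    subst hQc
    have hR : 0 < R := (dist_nonneg).trans_lt hP
    have hn0 : 0 < n := by omega
    obtain ⟨e₂, he₂, -⟩ := exists_orthogonal_unit hn (P - Q) (sub_ne_zero.2 hPc)
    set d := min (ε / 2) (R / 2) with hd
    have hd0 : 0 < d := lt_min (by linarith) (by linarith)
    have hQ' : dist (Q + d • e₂) Q = d := by
      rw [dist_eq_norm, add_sub_cancel_left, norm_smul, he₂, Real.norm_eq_abs, abs_of_pos hd0,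
        mul_one]
    have hmem : Q + d • e₂ ∈ Metric.ball Q R := by
      rw [Metric.mem_ball, hQ']
      exact (min_le_right _ _).trans_lt (by linarith)
    have hne : Q + d • e₂ ≠ Q := by
      rw [← dist_pos, hQ']; exact hd0
    obtain ⟨T₀, hT₀⟩ := pointwise_ball hn hP hPc hmem hne (half_pos hε)
    refine ⟨T₀, fun T hT => ?_⟩
    obtain ⟨X, hX, hXd⟩ := hT₀ T hT
    refine ⟨X, hX, ?_⟩
    calc dist X Q ≤ dist X (Q + d • e₂) + dist (Q + d • e₂) Q := dist_triangle _ _ _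
      _ < ε / 2 + ε / 2 := by
        rw [hQ']
        have : d ≤ ε / 2 := min_le_left _ _
        linarith
      _ = ε := by ring
  · exact pointwise_ball hn hP hPc hQ hQc hε

theorem frontsBecomeDense_shell (hn : 2 ≤ n) {c P : E n} {a R : ℝ} (ha0 : 0 < a)
    (hP : P ∈ shell c a R) : FrontsBecomeDense (shell c a R) P := by
  apply frontsBecomeDense_of_pointwise
  · exact Metric.isBounded_ball.subset (fun x hx => hx.2 : shell c a R ⊆ Metric.ball c R)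
  · intro Q hQ ε hε
    exact pointwise_shell hn ha0 hP hQ hε

end Pool.Agent.MP_67b65f_an
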