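import Pool.Agent.MP_67b65f_an.Plane

open scoped RealInnerProductSpace Topology ContDiff
open Set Filter

namespace Pool.Agent.MP_67b65f_an

variable {n : ℕ} {e₁ e₂ : E n}

lemma mem_closure_of_free {Ω : Set (E n)} {x v : E n} {a b : ℝ} (hab : a < b)
    (h : ∀ s ∈ Ioo a b, x + (s - a) • v ∈ Ω) : x + (b - a) • v ∈ closure Ω := by
  have hc : Continuous (fun s : ℝ => x + (s - a) • v) := by fun_prop
  have h1 : Tendsto (fun s : ℝ => x + (s - a) • v) (𝓝[<] b) (𝓝 (x + (b - a) • v)) :=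
    (hc.tendsto b).mono_left nhdsWithin_le_nhds
  refine mem_closure_of_tendsto h1 ?_
  filter_upwards [Ioo_mem_nhdsLT hab] with s hs using h s hs

/-- Building a trajectory from straight legs which are reflected at spheres centred at `c`. -/
lemma isTrajectory_of_legs (H : OPair e₁ e₂) {Ω : Set (E n)} (hΩ : IsOpen Ω) {c : E n} {p : ℝ}
    (m τ t b ς γ : ℕ → ℝ) (N : ℕ) (T : ℝ) (ht0 : t 0 = 0)
    (hb : ∀ i < N, 0 < b i) (hς : ∀ i < N, ς i = 1 ∨ ς i = -1)
    (hγ : ∀ i < N, b i * Real.cos (γ i) = p) (hsin : ∀ i < N, 0 < Real.sin (γ i))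
    (ht : ∀ i < N, t (i + 1) = τ i + ς i * (b i * Real.sin (γ i)))
    (hm : ∀ i < N, m (i + 1) = m i + 2 * (ς i * γ i))
    (hτ : ∀ i < N, τ (i + 1) = τ i + 2 * (ς i * (b i * Real.sin (γ i))))
    (hlt : ∀ i < N, t i < t (i + 1))
    (hfree : ∀ i < N, ∀ s ∈ Ioo (t i) (t (i + 1)), c + chord e₁ e₂ p (m i) (s - τ i) ∈ Ω)
    (hnear : ∀ i < N, ∀ q : E n, ‖q - c‖ = b i →
      ∀ᶠ x in 𝓝 q, (x ∈ Ω ↔ ς i * (‖x - c‖ ^ 2 - b i ^ 2) < 0))
    (hle : t N ≤ T)
    (hlast : ∀ s ∈ Ioc (t N) T, c + chord e₁ e₂ p (m N) (s - τ N) ∈ Ω) :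
    IsTrajectory Ω (c + chord e₁ e₂ p (m 0) (-τ 0)) (dirV e₁ e₂ (m 0)) T N t
      (fun i => c + chord e₁ e₂ p (m i) (t i - τ i)) (fun i => dirV e₁ e₂ (m i)) := by
  -- the position at time `s` on leg `i`
  have hpos : ∀ i s, c + chord e₁ e₂ p (m i) (t i - τ i) + (s - t i) • dirV e₁ e₂ (m i) =
      c + chord e₁ e₂ p (m i) (s - τ i) := by
    intro i s
    rw [show s - τ i = (t i - τ i) + (s - t i) by ring, chord_add, add_assoc]
  have hsς : ∀ i < N, ς i * Real.sin (γ i) = Real.sin (ς i * γ i) := by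
    intro i hi
    rcases hς i hi with h | h <;> simp [h]
  have hcς : ∀ i < N, b i * Real.cos (ς i * γ i) = p := by
    intro i hi
    rcases hς i hi with h | h <;> simp [h, hγ i hi]
  have hend : ∀ i < N, t (i + 1) - τ i = b i * Real.sin (ς i * γ i) := by
    intro i hi
    rw [ht i hi, ← hsς i hi]; ring
  have hstart : ∀ i < N, t (i + 1) - τ (i + 1) = -(b i * Real.sin (ς i * γ i)) := by
    intro i hi
    rw [ht i hi, hτ i hi, ← hsς i hi]; ring
  have hq : ∀ i < N, c + chord e₁ e₂ p (m (i + 1)) (t (i + 1) - τ (i + 1)) =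
      c + chord e₁ e₂ p (m i) (t (i + 1) - τ i) := by
    intro i hi
    rw [hstart i hi, hend i hi, hm i hi, chord_reflect e₁ e₂ (hcς i hi)]
  have hqU : ∀ i < N, c + chord e₁ e₂ p (m (i + 1)) (t (i + 1) - τ (i + 1)) =
      c + b i • dirU e₁ e₂ (m i + ς i * γ i) := by
    intro i hi
    rw [hq i hi, hend i hi, chord_eq_dirU e₁ e₂ (hcς i hi)]
  have hqn : ∀ i < N, ‖c + chord e₁ e₂ p (m (i + 1)) (t (i + 1) - τ (i + 1)) - c‖ = b i := by
    intro i hi
    rw [hqU i hi, add_sub_cancel_left, norm_smul, H.norm_U, Real.norm_eq_abs,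
      abs_of_pos (hb i hi), mul_one]
  refine ⟨ht0, ?_, rfl, hlt, ?_, ?_, ?_, ?_, hle, ?_⟩
  · simp only [ht0, zero_sub]
  · intro i hi s hs
    rw [hpos]
    exact hfree i hi s hs
  · intro i hi
    rw [hpos, hq i hi]
  · intro i hi
    have h1 : c + chord e₁ e₂ p (m (i + 1)) (t (i + 1) - τ (i + 1)) ∈ closure Ω := by
      have := mem_closure_of_free (Ω := Ω)
        (x := c + chord e₁ e₂ p (m i) (t i - τ i)) (v := dirV e₁ e₂ (m i)) (hlt i hi)
        (fun s hs => by rw [hpos]; exact hfree i hi s hs)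
      rwa [hpos, ← hq i hi] at this
    have h2 : c + chord e₁ e₂ p (m (i + 1)) (t (i + 1) - τ (i + 1)) ∉ Ω := by
      have := (hnear i hi _ (hqn i hi)).self_of_nhds
      rw [this, hqn i hi]
      simp
    rw [frontier, hΩ.interior_eq]
    exact ⟨h1, h2⟩
  · intro i hi
    refine ⟨ς i • dirU e₁ e₂ (m i + ς i * γ i), ?_, ?_, ?_⟩
    · exact isOuterNormal_sphere (hb i hi) (hς i hi) (H.norm_U _) (hqU i hi)
        (hnear i hi _ (hqn i hi))
    · rw [real_inner_smul_right, H.inner_VU, show m i + ς i * γ i - m i = ς i * γ i by ring,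
        ← hsς i hi]
      have := hsin i hi
      rcases hς i hi with h | h <;> rw [h] <;> linarith
    · rw [real_inner_smul_right, H.inner_VU, show m i + ς i * γ i - m i = ς i * γ i by ring,
        hm i hi, dirV_reflect, smul_smul]
      congr 2
      rcases hς i hi with h | h <;> rw [h] <;> ring
  · intro s hs
    rw [hpos]
    exact hlast s hs

end Pool.Agent.MP_67b65f_an
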