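import Pool.Agent.MP_67b65f_an.Defs

open scoped RealInnerProductSpace Topology ContDiff
open Set Filter

namespace Pool.Agent.MP_67b65f_an

variable {n : ℕ}

lemma IsDefiningAt.hasGradientAt {Ω : Set (E n)} {p : E n} {f : E n → ℝ}
    (h : IsDefiningAt Ω p f) : HasGradientAt f (gradient f p) p := by
  obtain ⟨-, -, U, hU, hpU, hf, -⟩ := h
  have : ContDiffAt ℝ ∞ f p := hf.contDiffAt (hU.mem_nhds hpU)
  exact (this.differentiableAt (by simp)).hasGradientAt

lemma IsDefiningAt.eventually {Ω : Set (E n)} {p : E n} {f : E n → ℝ}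
    (h : IsDefiningAt Ω p f) : ∀ᶠ x in 𝓝 p, (x ∈ Ω ↔ f x < 0) := by
  obtain ⟨-, -, U, hU, hpU, -, hΩ⟩ := h
  filter_upwards [hU.mem_nhds hpU] with x hx using hΩ x hx

lemma hasDerivAt_line {f : E n → ℝ} {p g : E n} (h : HasGradientAt f g p) (w : E n) :
    HasDerivAt (fun t : ℝ => f (p + t • w)) ⟪g, w⟫ 0 := by
  have h1 : HasDerivAt (fun t : ℝ => p + t • w) w 0 := by
    simpa using ((hasDerivAt_id (0:ℝ)).smul_const w).const_add p
  have h2 : HasFDerivAt f (InnerProductSpace.toDual ℝ (E n) g) (p + (0:ℝ) • w) := by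
    simpa using h.hasFDerivAt
  have := h2.comp_hasDerivAt (0:ℝ) h1
  simpa [Function.comp_def] using this

lemma eventually_neg_of_hasDerivAt {φ : ℝ → ℝ} {c : ℝ} (h : HasDerivAt φ c 0) (h0 : φ 0 = 0)
    (hc : c < 0) : ∀ᶠ t in 𝓝[>] (0:ℝ), φ t < 0 := by
  have h1 := (hasDerivAt_iff_tendsto_slope.1 h).eventually (eventually_lt_nhds hc)
  have h2 : ∀ᶠ t in 𝓝[>] (0:ℝ), slope φ 0 t < 0 :=
    h1.filter_mono (nhdsWithin_mono _ (fun x hx => ne_of_gt hx))
  filter_upwards [h2, self_mem_nhdsWithin] with t ht htpos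
  have htpos' : (0:ℝ) < t := htpos
  rw [slope_def_field, h0, sub_zero, sub_zero] at ht
  have := (div_lt_iff₀ htpos').1 ht
  simpa using this

lemma eventually_pos_of_hasDerivAt {φ : ℝ → ℝ} {c : ℝ} (h : HasDerivAt φ c 0) (h0 : φ 0 = 0)
    (hc : 0 < c) : ∀ᶠ t in 𝓝[>] (0:ℝ), 0 < φ t := by
  have := eventually_neg_of_hasDerivAt h.neg (by simp [h0]) (by linarith)
  filter_upwards [this] with t ht
  simpa using ht

/-- The unit normal does not depend on the local defining function. -/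
theorem IsDefiningAt.normal_unique {Ω : Set (E n)} {p : E n} {f g : E n → ℝ}
    (hf : IsDefiningAt Ω p f) (hg : IsDefiningAt Ω p g) :
    (‖gradient f p‖)⁻¹ • gradient f p = (‖gradient g p‖)⁻¹ • gradient g p := by
  set a := (‖gradient f p‖)⁻¹ • gradient f p with ha
  set b := (‖gradient g p‖)⁻¹ • gradient g p with hb
  have hf0 : 0 < ‖gradient f p‖ := norm_pos_iff.2 hf.2.1
  have hg0 : 0 < ‖gradient g p‖ := norm_pos_iff.2 hg.2.1
  have ha1 : ‖a‖ = 1 := by
    rw [ha, norm_smul, norm_inv, norm_norm, inv_mul_cancel₀ hf0.ne']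
  have hb1 : ‖b‖ = 1 := by
    rw [hb, norm_smul, norm_inv, norm_norm, inv_mul_cancel₀ hg0.ne']
  by_contra hab
  have hlt : ⟪a, b⟫ < 1 := by
    have := (inner_lt_one_iff_real_of_norm_eq_one ha1 hb1).2 hab
    exact this
  have hfa : gradient f p = ‖gradient f p‖ • a := by
    rw [ha, smul_smul, mul_inv_cancel₀ hf0.ne', one_smul]
  have hgb : gradient g p = ‖gradient g p‖ • b := by
    rw [hb, smul_smul, mul_inv_cancel₀ hg0.ne', one_smul]
  have h1 : ⟪gradient f p, b - a⟫ < 0 := by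
    rw [hfa, real_inner_smul_left, inner_sub_right, real_inner_self_eq_norm_sq, ha1]
    nlinarith
  have h2 : 0 < ⟪gradient g p, b - a⟫ := by
    rw [hgb, real_inner_smul_left, inner_sub_right, real_inner_self_eq_norm_sq, hb1,
      real_inner_comm]
    nlinarith
  have e1 := eventually_neg_of_hasDerivAt (hasDerivAt_line hf.hasGradientAt (b - a))
    (by simp [hf.1]) h1
  have e2 := eventually_pos_of_hasDerivAt (hasDerivAt_line hg.hasGradientAt (b - a))
    (by simp [hg.1]) h2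
  have hcont : Tendsto (fun t : ℝ => p + t • (b - a)) (𝓝[>] 0) (𝓝 p) := by
    have : Continuous (fun t : ℝ => p + t • (b - a)) := by fun_prop
    have h := this.tendsto 0
    simp only [zero_smul, add_zero] at h
    exact h.mono_left nhdsWithin_le_nhds
  have e3 := hcont.eventually hf.eventually
  have e4 := hcont.eventually hg.eventually
  obtain ⟨t, h1, h2, h3, h4⟩ := (e1.and (e2.and (e3.and e4))).exists
  exact absurd (h4.1 (h3.2 h1)) (not_lt.2 h2.le)

lemma IsOuterNormal.eq_of_isDefiningAt {Ω : Set (E n)} {p ν : E n} {f : E n → ℝ}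
    (hν : IsOuterNormal Ω p ν) (hf : IsDefiningAt Ω p f) :
    ν = (‖gradient f p‖)⁻¹ • gradient f p := by
  obtain ⟨-, g, hg, hgν⟩ := hν
  have hg0 : ‖gradient g p‖ ≠ 0 := norm_ne_zero_iff.2 hg.2.1
  rw [hf.normal_unique hg]
  nth_rewrite 2 [hgν]
  rw [smul_smul, inv_mul_cancel₀ hg0, one_smul]

lemma isOuterNormal_of_isDefiningAt {Ω : Set (E n)} {p : E n} {f : E n → ℝ}
    (hf : IsDefiningAt Ω p f) :
    IsOuterNormal Ω p ((‖gradient f p‖)⁻¹ • gradient f p) := by
  have hf0 : ‖gradient f p‖ ≠ 0 := norm_ne_zero_iff.2 hf.2.1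
  refine ⟨?_, f, hf, ?_⟩
  · rw [norm_smul, norm_inv, norm_norm, inv_mul_cancel₀ hf0]
  · rw [smul_smul, mul_inv_cancel₀ hf0, one_smul]

end Pool.Agent.MP_67b65f_an
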