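import Pool.Agent.MP_67b65f_an.Radial

open scoped RealInnerProductSpace Topology ContDiff
open Set Filter

namespace Pool.Agent.MP_67b65f_an

variable {n : ℕ} {e₁ e₂ : E n}

/-- The open shell between the spheres of radii `a < R` about `c`. -/
def shell (c : E n) (a R : ℝ) : Set (E n) := {x | a < dist x c ∧ dist x c < R}

lemma isOpen_shell (c : E n) (a R : ℝ) : IsOpen (shell c a R) := by
  have h : Continuous (fun x : E n => dist x c) := by fun_prop
  exact (isOpen_lt continuous_const h).inter (isOpen_lt h continuous_const)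

lemma chord_mem_ball (H : OPair e₁ e₂) {c : E n} {R p m σ : ℝ} (hp : 0 < p) (hR : p < R)
    (h1 : -hc R p < σ) (h2 : σ < hc R p) : c + chord e₁ e₂ p m σ ∈ Metric.ball c R := by
  have hR0 : 0 < R := hp.trans hR
  rw [mem_ball_iff_norm, add_sub_cancel_left]
  have h3 := norm_sq_chord e₁ e₂ H p m σ
  have h4 : σ ^ 2 < hc R p ^ 2 := by nlinarith
  rw [hc_sq hp hR] at h4
  exact lt_of_pow_lt_pow_left₀ 2 hR0.le (by linarith)

lemma chord_mem_shell (H : OPair e₁ e₂) {c : E n} {a R p m σ : ℝ} (hp : 0 < p) (ha' : p < a)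
    (hR : a < R) (h1 : hc a p ^ 2 < σ ^ 2) (h2 : σ ^ 2 < hc R p ^ 2) :
    c + chord e₁ e₂ p m σ ∈ shell c a R := by
  have h3 := norm_sq_chord e₁ e₂ H p m σ
  rw [hc_sq hp ha'] at h1
  rw [hc_sq hp (ha'.trans hR)] at h2
  have ha0 : 0 < a := hp.trans ha'
  constructor
  · rw [dist_eq_norm, add_sub_cancel_left]
    exact lt_of_pow_lt_pow_left₀ 2 (norm_nonneg _) (by linarith)
  · rw [dist_eq_norm, add_sub_cancel_left]
    exact lt_of_pow_lt_pow_left₀ 2 (ha0.trans hR).le (by linarith)

lemma near_ball {c : E n} {R : ℝ} (hR : 0 < R) (q : E n) :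
    ∀ᶠ x in 𝓝 q, (x ∈ Metric.ball c R ↔ (1:ℝ) * (‖x - c‖ ^ 2 - R ^ 2) < 0) := by
  refine Eventually.of_forall fun x => ?_
  rw [mem_ball_iff_norm, one_mul, sub_neg]
  constructor
  · intro h; exact pow_lt_pow_left₀ h (norm_nonneg _) (by norm_num)
  · intro h; exact lt_of_pow_lt_pow_left₀ 2 hR.le h

lemma near_shell_outer {c : E n} {a R : ℝ} (ha0 : 0 < a) (hR : a < R) (q : E n)
    (hq : ‖q - c‖ = R) :
    ∀ᶠ x in 𝓝 q, (x ∈ shell c a R ↔ (1:ℝ) * (‖x - c‖ ^ 2 - R ^ 2) < 0) := by
  have hcont : Continuous (fun x : E n => ‖x - c‖) := by fun_prop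
  have h1 : ∀ᶠ x in 𝓝 q, a < ‖x - c‖ :=
    hcont.continuousAt.eventually (lt_mem_nhds (by simpa only [hq] using hR))
  filter_upwards [h1] with x hx
  have : x ∈ shell c a R ↔ ‖x - c‖ < R := by
    simp only [shell, mem_ofPred_eq, dist_eq_norm]
    exact ⟨fun h => h.2, fun h => ⟨hx, h⟩⟩
  rw [this, one_mul, sub_neg]
  constructor
  · intro h; exact pow_lt_pow_left₀ h (norm_nonneg _) (by norm_num)
  · intro h; exact lt_of_pow_lt_pow_left₀ 2 (ha0.trans hR).le h

lemma near_shell_inner {c : E n} {a R : ℝ} (ha0 : 0 < a) (hR : a < R) (q : E n)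
    (hq : ‖q - c‖ = a) :
    ∀ᶠ x in 𝓝 q, (x ∈ shell c a R ↔ (-1:ℝ) * (‖x - c‖ ^ 2 - a ^ 2) < 0) := by
  have hcont : Continuous (fun x : E n => ‖x - c‖) := by fun_prop
  have h1 : ∀ᶠ x in 𝓝 q, ‖x - c‖ < R :=
    hcont.continuousAt.eventually (gt_mem_nhds (by simpa only [hq] using hR))
  filter_upwards [h1] with x hx
  have : x ∈ shell c a R ↔ a < ‖x - c‖ := by
    simp only [shell, mem_ofPred_eq, dist_eq_norm]
    exact ⟨fun h => h.1, fun h => ⟨h, hx⟩⟩
  rw [this]
  constructor
  · intro h
    have := pow_lt_pow_left₀ h ha0.le (n := 2) (by norm_num)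
    linarith
  · intro h
    exact lt_of_pow_lt_pow_left₀ 2 (norm_nonneg _) (by linarith)

/-- The point reached in a ball after `k` reflections. -/
lemma mem_front_ball (H : OPair e₁ e₂) {c : E n} {R r ρ p : ℝ} (hp : 0 < p) (hpr : p < r)
    (hpρ : p < ρ) (hr : r < R) (hρ : ρ < R) (k : ℕ) :
    c + ρ • dirU e₁ e₂ (2 * k * ha R p + (ha r p + ha ρ p)) ∈
      front (Metric.ball c R) (c + r • e₁) (2 * k * hc R p + (hc r p + hc ρ p)) := by
  have hpR : p < R := hpr.trans hr
  have hR0 : 0 < R := hp.trans hpR
  have hH := hc_pos hp hpR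
  have hHr := hc_pos hp hpr
  have hHρ := hc_pos hp hpρ
  have hHr' := hc_lt hp hpr hr
  have hHρ' := hc_lt hp hpρ hρ
  set τ : ℕ → ℝ := fun i => hc r p + 2 * i * hc R p with hτ
  set m : ℕ → ℝ := fun i => ha r p + 2 * i * ha R p with hm
  set t : ℕ → ℝ := fun i => if i = 0 then 0 else τ i - hc R p with ht
  have htr := isTrajectory_of_legs H (Ω := Metric.ball c R) Metric.isOpen_ball (c := c) (p := p)
    m τ t (fun _ => R) (fun _ => 1) (fun _ => ha R p) k (2 * k * hc R p + (hc r p + hc ρ p))
    (by simp [ht]) (fun _ _ => hR0) (fun _ _ => Or.inl rfl) (fun _ _ => cos_ha hp hpR)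
    (fun _ _ => sin_ha_pos hp hpR)
    (fun i _ => by
      simp only [ht, Nat.succ_ne_zero, if_false, one_mul, sin_ha hp hpR, hτ]
      push_cast
      ring)
    (fun i _ => by simp only [hm]; push_cast; ring)
    (fun i _ => by simp only [hτ, one_mul, sin_ha hp hpR]; push_cast; ring)
    (fun i _ => by
      rcases Nat.eq_zero_or_pos i with h0 | h0
      · subst h0
        simp only [ht, hτ, Nat.succ_ne_zero, if_false, if_true]
        push_cast
        linarith
      · simp only [ht, hτ, Nat.succ_ne_zero, if_false, h0.ne']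
        push_cast
        linarith)
    (fun i _ s hs => by
      have h2 : s < τ i + hc R p := by
        have := hs.2
        simp only [ht, Nat.succ_ne_zero, if_false, hτ] at this ⊢
        push_cast at this
        linarith
      have h1 : τ i - hc R p < s := by
        rcases Nat.eq_zero_or_pos i with h0 | h0
        · subst h0
          have := hs.1
          simp only [ht, if_true, hτ] at this ⊢
          push_cast
          linarith
        · have := hs.1
          simp only [ht, if_false, h0.ne', hτ] at this ⊢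
          linarith
      exact chord_mem_ball H hp hpR (by linarith) (by linarith))
    (fun i _ q _ => near_ball hR0 q)
    (by
      rcases Nat.eq_zero_or_pos k with h0 | h0
      · subst h0
        simp only [ht, if_true]
        push_cast
        linarith
      · simp only [ht, if_false, h0.ne', hτ]
        linarith)
    (fun s hs => by
      have h2 : s ≤ 2 * k * hc R p + (hc r p + hc ρ p) := hs.2
      have h1 : τ k - hc R p < s := by
        rcases Nat.eq_zero_or_pos k with h0 | h0
        · subst h0
          have := hs.1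
          simp only [ht, if_true, hτ] at this ⊢
          push_cast
          linarith
        · have := hs.1
          simp only [ht, if_false, h0.ne', hτ] at this ⊢
          linarith
      refine chord_mem_ball H hp hpR (by linarith) ?_
      simp only [hτ]
      linarith)
  have hstart : c + chord e₁ e₂ p (m 0) (-τ 0) = c + r • e₁ := by
    have h1 : -τ 0 = r * Real.sin (-(ha r p)) := by
      rw [Real.sin_neg, mul_neg, sin_ha hp hpr]
      simp [hτ]
    rw [h1, chord_eq_dirU e₁ e₂ (by rw [Real.cos_neg]; exact cos_ha hp hpr)]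
    have h2 : m 0 + -(ha r p) = 0 := by simp [hm]
    rw [h2, dirU_zero]
  rw [hstart] at htr
  refine ⟨_, k, t, _, _, H.norm_V _, htr, ?_⟩
  rw [add_assoc, ← chord_add]
  have h1 : t k - τ k + (2 * k * hc R p + (hc r p + hc ρ p) - t k) = ρ * Real.sin (ha ρ p) := by
    rw [sin_ha hp hpρ]
    simp only [hτ]
    ring
  rw [h1, chord_eq_dirU e₁ e₂ (cos_ha hp hpρ)]
  congr 3
  simp only [hm]
  ring

/-- The sequence of leg data in a shell: sum of alternating increments. -/
noncomputable def altSum (x₀ A B : ℝ) : ℕ → ℝ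
  | 0 => x₀
  | i + 1 => altSum x₀ A B i + 2 * (if Even i then A else -B)

lemma altSum_odd (x₀ A B : ℝ) (k : ℕ) :
    altSum x₀ A B (2 * k + 1) = x₀ + 2 * k * (A - B) + 2 * A := by
  induction k with
  | zero => simp [altSum]
  | succ k ih =>
    have h1 : 2 * (k + 1) + 1 = (2 * k + 1) + 1 + 1 := by ring
    rw [h1]
    have e1 : ¬ Even (2 * k + 1) := by simp
    have e2 : Even (2 * k + 1 + 1) := by
      rw [Nat.even_add_one]; simp
    simp only [altSum, e2, if_true] at ih ⊢
    rw [show altSum x₀ A B (2 * k) + 2 * (if Even (2 * k) then A else -B) =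
      x₀ + 2 * k * (A - B) + 2 * A from ih]
    rw [if_neg e1]
    push_cast
    ring

/-- The point reached in a shell after `2 k + 1` reflections. -/
lemma mem_front_shell (H : OPair e₁ e₂) {c : E n} {a R r ρ p : ℝ} (hp : 0 < p) (hpa : p < a)
    (har : a < r) (haρ : a < ρ) (hr : r < R) (hρ : ρ < R) (k : ℕ) :
    c + ρ • dirU e₁ e₂ (2 * k * (ha R p - ha a p) + (2 * ha R p - ha r p - ha ρ p)) ∈
      front (shell c a R) (c + r • e₁)
        (2 * k * (hc R p - hc a p) + (2 * hc R p - hc r p - hc ρ p)) := by
  have hpr : p < r := hpa.trans har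
  have hpρ : p < ρ := hpa.trans haρ
  have hpR : p < R := hpr.trans hr
  have ha0 : 0 < a := hp.trans hpa
  have haR : a < R := har.trans hr
  have hR0 : 0 < R := hp.trans hpR
  have hH := hc_pos hp hpR
  have hA := hc_pos hp hpa
  have hHr := hc_pos hp hpr
  have hHρ := hc_pos hp hpρ
  have hHr' := hc_lt hp hpr hr
  have hHρ' := hc_lt hp hpρ hρ
  have hAr := hc_lt hp hpa har
  have hAρ := hc_lt hp hpa haρ
  have hAR := hc_lt hp hpa haR
  set τ : ℕ → ℝ := altSum (-hc r p) (hc R p) (hc a p) with hτ
  set m : ℕ → ℝ := altSum (-ha r p) (ha R p) (ha a p) with hm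
  set t : ℕ → ℝ := fun i => if i = 0 then 0 else
    if Even i then τ i + hc a p else τ i - hc R p with ht
  set b : ℕ → ℝ := fun i => if Even i then R else a with hb
  set ς : ℕ → ℝ := fun i => if Even i then 1 else -1 with hς
  set γ : ℕ → ℝ := fun i => if Even i then ha R p else ha a p with hγ
  have ht1 : ∀ i, t (i + 1) = τ i + ς i * (b i * Real.sin (γ i)) := by
    intro i
    by_cases he : Even i
    · have he' : ¬ Even (i + 1) := by rw [Nat.even_add_one]; exact fun h => h he
      simp only [ht, hb, hς, hγ, he, he', Nat.succ_ne_zero, if_false, if_true, sin_ha hp hpR]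
      simp only [hτ, altSum, he, if_true]
      ring
    · have he' : Even (i + 1) := by rw [Nat.even_add_one]; exact he
      simp only [ht, hb, hς, hγ, he, he', Nat.succ_ne_zero, if_false, if_true, sin_ha hp hpa]
      simp only [hτ, altSum, he, if_false]
      ring
  -- relative start and end of the legs
  have hev : ∀ i, Even i → hc a p < t i - τ i ∨ hc a p = t i - τ i := by
    intro i he
    rcases Nat.eq_zero_or_pos i with h0 | h0
    · left
      subst h0
      simp only [ht, hτ, altSum, if_true]
      linarith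
    · right
      simp only [ht, h0.ne', if_false, he, if_true]
      ring
  have hev' : ∀ i, Even i → t (i + 1) - τ i = hc R p := by
    intro i he
    rw [ht1]
    simp only [hς, hb, hγ, he, if_true, sin_ha hp hpR]
    ring
  have hev'' : ∀ i, Even i → t i - τ i < hc R p := by
    intro i he
    rcases Nat.eq_zero_or_pos i with h0 | h0
    · subst h0
      simp only [ht, hτ, altSum, if_true]
      linarith
    · simp only [ht, h0.ne', if_false, he, if_true]
      linarith
  have hod : ∀ i, ¬ Even i → t i - τ i = -hc R p := by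
    intro i he
    have h0 : i ≠ 0 := by rintro rfl; exact he (by simp)
    simp only [ht, h0, if_false, he]
    ring
  have hod' : ∀ i, ¬ Even i → t (i + 1) - τ i = -hc a p := by
    intro i he
    rw [ht1]
    simp only [hς, hb, hγ, he, if_false, sin_ha hp hpa]
    ring
  have hN : ¬ Even (2 * k + 1) := by simp
  have hT : τ (2 * k + 1) - hc ρ p =
      2 * k * (hc R p - hc a p) + (2 * hc R p - hc r p - hc ρ p) := by
    rw [hτ, altSum_odd]; ring
  have htr := isTrajectory_of_legs H (Ω := shell c a R) (isOpen_shell c a R) (c := c) (p := p)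
    m τ t b ς γ (2 * k + 1) (2 * k * (hc R p - hc a p) + (2 * hc R p - hc r p - hc ρ p))
    (by simp [ht])
    (fun i _ => by simp only [hb]; split_ifs <;> assumption)
    (fun i _ => by simp only [hς]; split_ifs <;> simp)
    (fun i _ => by
      simp only [hb, hγ]; split_ifs
      · exact cos_ha hp hpR
      · exact cos_ha hp hpa)
    (fun i _ => by
      simp only [hγ]; split_ifs
      · exact sin_ha_pos hp hpR
      · exact sin_ha_pos hp hpa)
    (fun i _ => ht1 i)
    (fun i _ => by
      by_cases he : Even i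
      · simp only [hm, altSum, hς, hγ, he, if_true]; ring
      · simp only [hm, altSum, hς, hγ, he, if_false]; ring)
    (fun i _ => by
      by_cases he : Even i
      · simp only [hτ, altSum, hς, hγ, hb, he, if_true, sin_ha hp hpR]; ring
      · simp only [hτ, altSum, hς, hγ, hb, he, if_false, sin_ha hp hpa]; ring)
    (fun i _ => by
      by_cases he : Even i
      · have h1 := hev' i he
        have h2 := hev'' i he
        linarith
      · have h1 := hod i he
        have h2 := hod' i he
        linarith)
    (fun i _ s hs => by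
      by_cases he : Even i
      · have h1 := hev' i he
        have h3 : hc a p < s - τ i := by
          have := hs.1
          rcases hev i he with h | h <;> linarith
        have h4 : s - τ i < hc R p := by have := hs.2; linarith
        refine chord_mem_shell H hp hpa haR ?_ ?_ <;> nlinarith
      · have h1 := hod' i he
        have h2 := hod i he
        have h3 : -hc R p < s - τ i := by have := hs.1; linarith
        have h4 : s - τ i < -hc a p := by have := hs.2; linarith
        refine chord_mem_shell H hp hpa haR ?_ ?_ <;> nlinarith)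
    (fun i _ q hq => by
      by_cases he : Even i
      · simp only [hb, hς, he, if_true] at hq ⊢
        exact near_shell_outer ha0 haR q hq
      · simp only [hb, hς, he, if_false] at hq ⊢
        exact near_shell_inner ha0 haR q hq)
    (by
      have h1 := hod _ hN
      rw [← hT]
      linarith)
    (fun s hs => by
      have h2 : s ≤ τ (2 * k + 1) - hc ρ p := by rw [hT]; exact hs.2
      have h1 := hod _ hN
      have h3 : -hc R p < s - τ (2 * k + 1) := by have := hs.1; linarith
      refine chord_mem_shell H hp hpa haR ?_ ?_ <;> nlinarith)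
  have hstart : c + chord e₁ e₂ p (m 0) (-τ 0) = c + r • e₁ := by
    have h1 : -τ 0 = r * Real.sin (ha r p) := by
      rw [sin_ha hp hpr]
      simp [hτ, altSum]
    rw [h1, chord_eq_dirU e₁ e₂ (cos_ha hp hpr)]
    have h2 : m 0 + ha r p = 0 := by simp [hm, altSum]
    rw [h2, dirU_zero]
  rw [hstart] at htr
  refine ⟨_, 2 * k + 1, t, _, _, H.norm_V _, htr, ?_⟩
  rw [add_assoc, ← chord_add]
  have h1 : t (2 * k + 1) - τ (2 * k + 1) +
      (2 * k * (hc R p - hc a p) + (2 * hc R p - hc r p - hc ρ p) - t (2 * k + 1)) =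
      ρ * Real.sin (-ha ρ p) := by
    rw [Real.sin_neg, mul_neg, sin_ha hp hpρ, ← hT]
    ring
  rw [h1, chord_eq_dirU e₁ e₂ (by rw [Real.cos_neg]; exact cos_ha hp hpρ)]
  congr 3
  rw [hm, altSum_odd]
  ring

end Pool.Agent.MP_67b65f_an
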