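import Pool.Agent.MP_67b65f_an.Normal

open scoped RealInnerProductSpace Topology ContDiff
open Set Filter

namespace Pool.Agent.MP_67b65f_an

variable {n : ℕ}

/-- Point at angle `θ` of the unit circle in the plane of `e₁, e₂`. -/
noncomputable def dirU (e₁ e₂ : E n) (θ : ℝ) : E n := Real.cos θ • e₁ + Real.sin θ • e₂

/-- Tangent direction at angle `θ`. -/
noncomputable def dirV (e₁ e₂ : E n) (θ : ℝ) : E n := -Real.sin θ • e₁ + Real.cos θ • e₂

/-- `e₁, e₂` is an orthonormal pair. -/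
structure OPair (e₁ e₂ : E n) : Prop where
  h1 : ‖e₁‖ = 1
  h2 : ‖e₂‖ = 1
  h12 : ⟪e₁, e₂⟫ = 0

namespace OPair

variable {e₁ e₂ : E n}

lemma i11 (H : OPair e₁ e₂) : ⟪e₁, e₁⟫ = 1 := by
  rw [real_inner_self_eq_norm_sq, H.h1]; norm_num

lemma i22 (H : OPair e₁ e₂) : ⟪e₂, e₂⟫ = 1 := by
  rw [real_inner_self_eq_norm_sq, H.h2]; norm_num

lemma i21 (H : OPair e₁ e₂) : ⟪e₂, e₁⟫ = 0 := by
  rw [real_inner_comm, H.h12]

lemma inner_comb (H : OPair e₁ e₂) (a b c d : ℝ) :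
    ⟪a • e₁ + b • e₂, c • e₁ + d • e₂⟫ = a * c + b * d := by
  simp only [inner_add_left, inner_add_right, real_inner_smul_left, real_inner_smul_right,
    H.i11, H.i22, H.i21, H.h12]
  ring

lemma norm_sq_comb (H : OPair e₁ e₂) (a b : ℝ) : ‖a • e₁ + b • e₂‖ ^ 2 = a ^ 2 + b ^ 2 := by
  rw [← real_inner_self_eq_norm_sq, H.inner_comb]; ring

lemma inner_UU (H : OPair e₁ e₂) (x y : ℝ) :
    ⟪dirU e₁ e₂ x, dirU e₁ e₂ y⟫ = Real.cos (x - y) := by
  rw [dirU, dirU, H.inner_comb, Real.cos_sub]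

lemma inner_UV (H : OPair e₁ e₂) (x y : ℝ) :
    ⟪dirU e₁ e₂ x, dirV e₁ e₂ y⟫ = Real.sin (x - y) := by
  rw [dirU, dirV, H.inner_comb, Real.sin_sub]; ring

lemma inner_VU (H : OPair e₁ e₂) (x y : ℝ) :
    ⟪dirV e₁ e₂ x, dirU e₁ e₂ y⟫ = Real.sin (y - x) := by
  rw [real_inner_comm, H.inner_UV]

lemma inner_VV (H : OPair e₁ e₂) (x y : ℝ) :
    ⟪dirV e₁ e₂ x, dirV e₁ e₂ y⟫ = Real.cos (x - y) := by
  rw [dirV, dirV, H.inner_comb, Real.cos_sub]; ring

lemma norm_U (H : OPair e₁ e₂) (x : ℝ) : ‖dirU e₁ e₂ x‖ = 1 := by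
  have := H.inner_UU x x
  rw [real_inner_self_eq_norm_sq, sub_self, Real.cos_zero] at this
  have h0 := norm_nonneg (dirU e₁ e₂ x)
  nlinarith [this, h0]

lemma norm_V (H : OPair e₁ e₂) (x : ℝ) : ‖dirV e₁ e₂ x‖ = 1 := by
  have := H.inner_VV x x
  rw [real_inner_self_eq_norm_sq, sub_self, Real.cos_zero] at this
  have h0 := norm_nonneg (dirV e₁ e₂ x)
  nlinarith [this, h0]

lemma pairUV (H : OPair e₁ e₂) (x : ℝ) : OPair (dirU e₁ e₂ x) (dirV e₁ e₂ x) :=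
  ⟨H.norm_U x, H.norm_V x, by rw [H.inner_UV]; simp⟩

lemma norm_U_sub_U (H : OPair e₁ e₂) (x y : ℝ) :
    ‖dirU e₁ e₂ x - dirU e₁ e₂ y‖ ≤ |x - y| := by
  have h1 : ‖dirU e₁ e₂ x - dirU e₁ e₂ y‖ ^ 2 = 2 - 2 * Real.cos (x - y) := by
    rw [norm_sub_sq_real, H.norm_U, H.norm_U, H.inner_UU]; ring
  have h2 := Real.one_sub_sq_div_two_le_cos (x := x - y)
  apply abs_le_of_sq_le_sq' _ (abs_nonneg _) |>.2
  rw [h1, sq_abs]
  linarith

end OPair

variable (e₁ e₂ : E n)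

lemma dirU_add (x y : ℝ) :
    dirU e₁ e₂ (x + y) = Real.cos y • dirU e₁ e₂ x + Real.sin y • dirV e₁ e₂ x := by
  simp only [dirU, dirV, Real.cos_add, Real.sin_add]
  module

lemma dirV_add (x y : ℝ) :
    dirV e₁ e₂ (x + y) = Real.cos y • dirV e₁ e₂ x - Real.sin y • dirU e₁ e₂ x := by
  simp only [dirU, dirV, Real.cos_add, Real.sin_add]
  module

lemma dirU_add_int_mul_two_pi (x : ℝ) (m : ℤ) :
    dirU e₁ e₂ (x + 2 * Real.pi * m) = dirU e₁ e₂ x := by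
  have h : x + 2 * Real.pi * m = x + m * (2 * Real.pi) := by ring
  simp only [dirU, h, Real.cos_add_int_mul_two_pi, Real.sin_add_int_mul_two_pi]

lemma dirU_zero : dirU e₁ e₂ 0 = e₁ := by simp [dirU]

/-- The position on the line at distance `p` from the origin, with foot point at angle `m`. -/
noncomputable def chord (p m σ : ℝ) : E n := p • dirU e₁ e₂ m + σ • dirV e₁ e₂ m

lemma norm_sq_chord (H : OPair e₁ e₂) (p m σ : ℝ) :
    ‖chord e₁ e₂ p m σ‖ ^ 2 = p ^ 2 + σ ^ 2 :=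
  (H.pairUV m).norm_sq_comb p σ

lemma chord_add (p m σ τ : ℝ) :
    chord e₁ e₂ p m (σ + τ) = chord e₁ e₂ p m σ + τ • dirV e₁ e₂ m := by
  simp only [chord]; module

lemma chord_eq_dirU {p m b γ : ℝ} (hp : b * Real.cos γ = p) :
    chord e₁ e₂ p m (b * Real.sin γ) = b • dirU e₁ e₂ (m + γ) := by
  rw [chord, dirU_add, ← hp]; module

lemma chord_reflect {p m b γ : ℝ} (hp : b * Real.cos γ = p) :
    chord e₁ e₂ p m (b * Real.sin γ) = chord e₁ e₂ p (m + 2 * γ) (-(b * Real.sin γ)) := by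
  have h1 := chord_eq_dirU e₁ e₂ (m := m) hp
  have h2 := chord_eq_dirU e₁ e₂ (m := m + 2 * γ) (γ := -γ) (b := b) (p := p)
    (by rw [Real.cos_neg]; exact hp)
  rw [h1, show -(b * Real.sin γ) = b * Real.sin (-γ) by rw [Real.sin_neg]; ring, h2]
  congr 2
  ring

lemma dirV_reflect (m γ : ℝ) :
    dirV e₁ e₂ (m + 2 * γ) = dirV e₁ e₂ m - (2 * Real.sin γ) • dirU e₁ e₂ (m + γ) := by
  have h1 := dirV_add e₁ e₂ (m + γ) γ
  have h2 := dirV_add e₁ e₂ (m + γ) (-γ)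
  rw [Real.cos_neg, Real.sin_neg] at h2
  have e1 : m + γ + γ = m + 2 * γ := by ring
  have e2 : m + γ + -γ = m := by ring
  rw [e1] at h1
  rw [e2] at h2
  rw [h1, h2]
  module

/-- Outer normal at a boundary point lying on a sphere; `ς = 1` if the domain is inside the
sphere near this point and `ς = -1` if it is outside. -/
lemma isOuterNormal_sphere {Ω : Set (E n)} {c q w : E n} {b ς : ℝ} (hb : 0 < b)
    (hς : ς = 1 ∨ ς = -1) (hw : ‖w‖ = 1) (hq : q = c + b • w)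
    (hΩ : ∀ᶠ x in 𝓝 q, (x ∈ Ω ↔ ς * (‖x - c‖ ^ 2 - b ^ 2) < 0)) :
    IsOuterNormal Ω q (ς • w) := by
  have hς0 : ς ≠ 0 := by rcases hς with h | h <;> rw [h] <;> norm_num
  have hςn : |ς| = 1 := by rcases hς with h | h <;> rw [h] <;> norm_num
  set f : E n → ℝ := fun x => ς * (‖x - c‖ ^ 2 - b ^ 2) with hf
  have hgrad : HasGradientAt f ((2 * ς * b) • w) q := by
    rw [hasGradientAt_iff_hasFDerivAt]
    have h1 : HasFDerivAt (fun x : E n => x - c) (ContinuousLinearMap.id ℝ (E n)) q :=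
      (hasFDerivAt_id q).sub_const c
    have h2 := ((h1.norm_sq).sub_const (b ^ 2)).const_mul ς
    refine h2.congr_fderiv ?_
    ext y
    have hqc : q - c = b • w := by rw [hq]; simp
    simp only [ContinuousLinearMap.comp_id, smul_apply,
      innerSL_apply_apply, InnerProductSpace.toDual_apply_apply, hqc, real_inner_smul_left,
      smul_eq_mul, nsmul_eq_mul]
    push_cast
    ring
  have hg : gradient f q = (2 * ς * b) • w := hgrad.gradient
  have hnorm : ‖gradient f q‖ = 2 * b := by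
    rw [hg, norm_smul, hw, Real.norm_eq_abs, abs_mul, abs_mul, hςn, abs_of_pos hb]
    norm_num
  refine ⟨?_, f, ⟨?_, ?_, ?_⟩, ?_⟩
  · rw [norm_smul, hw, Real.norm_eq_abs, hςn]; norm_num
  · simp only [hf]
    rw [hq, add_sub_cancel_left, norm_smul, hw, Real.norm_eq_abs, abs_of_pos hb]
    ring
  · rw [← norm_pos_iff, hnorm]; positivity
  · obtain ⟨U, hU, hUo, hqU⟩ := eventually_nhds_iff.1 hΩ
    refine ⟨U, hUo, hqU, ?_, hU⟩
    apply ContDiff.contDiffOn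
    exact contDiff_const.mul (((contDiff_id.sub contDiff_const).norm_sq ℝ).sub contDiff_const)
  · rw [hnorm, hg, smul_smul]
    congr 1
    ring

end Pool.Agent.MP_67b65f_an
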