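import Mathlib

open Set Filter Topology

namespace Pool.Agent.MP_67b65f_an

/-- Data of a one parameter family of broken paths: a path with `2k` legs has length
`2 k h(p) + s(p)` and total angle `2 k g(p) + δ(p)`. -/
structure TwistData (p₀ : ℝ) (h g s δ g' δ' : ℝ → ℝ) : Prop where
  hh : ∀ p ∈ Ioo 0 p₀, HasDerivAt h (p * g' p) p
  hg : ∀ p ∈ Ioo 0 p₀, HasDerivAt g (g' p) p
  hs : ∀ p ∈ Ioo 0 p₀, HasDerivAt s (p * δ' p) p
  hδ : ∀ p ∈ Ioo 0 p₀, HasDerivAt δ (δ' p) p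
  hpos : ∀ p ∈ Ioo 0 p₀, 0 < h p
  hne : ∀ p ∈ Ioo 0 p₀, g' p ≠ 0
  cg' : ContinuousOn g' (Ioo 0 p₀)
  cδ' : ContinuousOn δ' (Ioo 0 p₀)
  unb : ∀ C : ℝ, ∃ p ∈ Ioo 0 p₀, C < h p / p - g p

namespace TwistData

variable {p₀ : ℝ} {h g s δ g' δ' : ℝ → ℝ}

lemma hasDerivAt_slope (H : TwistData p₀ h g s δ g' δ') {p : ℝ} (hp : p ∈ Ioo 0 p₀) :
    HasDerivAt (fun p => h p / p - g p) (-(h p) / p ^ 2) p := by
  have hp0 : p ≠ 0 := hp.1.ne'
  have := ((H.hh p hp).div (hasDerivAt_id p) hp0).sub (H.hg p hp)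
  refine this.congr_deriv ?_
  simp only [id_eq]
  field_simp
  ring

/-- A compact interval on which the angular step is in `[e/2, e]`, `0 < e ≤ ε`. -/
lemma exists_interval (H : TwistData p₀ h g s δ g' δ') (hp₀ : 0 < p₀) {ε : ℝ} (hε : 0 < ε) :
    ∃ (j : ℕ) (e p₁ p₂ : ℝ), 0 < e ∧ e ≤ ε ∧ 0 < p₁ ∧ p₁ < p₂ ∧ p₂ < p₀ ∧
      ∀ p ∈ Icc p₁ p₂, e / 2 ≤ 2 * (Real.pi * j - (h p / p - g p)) ∧
        2 * (Real.pi * j - (h p / p - g p)) ≤ e := by
  set G : ℝ → ℝ := fun p => h p / p - g p with hG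
  have hGd : ∀ p ∈ Ioo 0 p₀, HasDerivAt G (-(h p) / p ^ 2) p := fun p hp => H.hasDerivAt_slope hp
  have hGc : ContinuousOn G (Ioo 0 p₀) := fun p hp => (hGd p hp).continuousAt.continuousWithinAt
  have hanti : StrictAntiOn G (Ioo 0 p₀) := by
    apply strictAntiOn_of_deriv_neg (convex_Ioo _ _) hGc
    intro p hp
    rw [interior_Ioo] at hp
    rw [(hGd p hp).deriv]
    have := H.hpos p hp
    have hp2 : 0 < p ^ 2 := pow_pos hp.1 2
    exact div_neg_of_neg_of_pos (by linarith) hp2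
  obtain ⟨pb, hpb⟩ : ∃ p, p ∈ Ioo (0:ℝ) p₀ := ⟨p₀ / 2, by constructor <;> linarith⟩
  obtain ⟨j, hj⟩ := exists_nat_gt (G pb / Real.pi)
  have hj' : G pb < Real.pi * j := by
    have := (div_lt_iff₀ Real.pi_pos).1 hj
    linarith [mul_comm (j:ℝ) Real.pi]
  obtain ⟨pa, hpa, hpaG⟩ := H.unb (Real.pi * j)
  have hpaG' : Real.pi * j < G pa := hpaG
  set D : ℝ → ℝ := fun p => 2 * (Real.pi * j - G p) with hD
  have hDmono : StrictMonoOn D (Ioo 0 p₀) := by
    intro x hx y hy hxy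
    have := hanti hx hy hxy
    simp only [hD]
    linarith
  have hDc : ContinuousOn D (Ioo 0 p₀) := by
    exact continuousOn_const.mul (continuousOn_const.sub hGc)
  have hDa : D pa < 0 := by simp only [hD]; linarith
  have hDb : 0 < D pb := by simp only [hD]; linarith
  have hab : pa < pb := by
    by_contra hcon
    have := hDmono.monotoneOn hpb hpa (not_lt.1 hcon)
    linarith
  set e := min ε (D pb) with he
  have he0 : 0 < e := lt_min hε hDb
  have hsub : Icc pa pb ⊆ Ioo 0 p₀ := fun x hx =>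
    ⟨lt_of_lt_of_le hpa.1 hx.1, lt_of_le_of_lt hx.2 hpb.2⟩
  have hivt := intermediate_value_Icc hab.le (hDc.mono hsub)
  have heDb : e ≤ D pb := min_le_right _ _
  have he1 : e / 2 ∈ Icc (D pa) (D pb) := ⟨by linarith, by linarith⟩
  have he2 : e ∈ Icc (D pa) (D pb) := ⟨by linarith, heDb⟩
  obtain ⟨p₁, hp₁, hDp₁⟩ := hivt he1
  obtain ⟨p₂, hp₂, hDp₂⟩ := hivt he2
  have h12 : p₁ < p₂ := by
    by_contra hcon
    have := hDmono.monotoneOn (hsub hp₂) (hsub hp₁) (not_lt.1 hcon)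
    rw [hDp₁, hDp₂] at this
    linarith
  refine ⟨j, e, p₁, p₂, he0, min_le_left _ _, (hsub hp₁).1, h12, (hsub hp₂).2, ?_⟩
  intro p hp
  have hpI : p ∈ Ioo 0 p₀ := ⟨lt_of_lt_of_le (hsub hp₁).1 hp.1, lt_of_le_of_lt hp.2 (hsub hp₂).2⟩
  constructor
  · have := hDmono.monotoneOn (hsub hp₁) hpI hp.1
    rw [hDp₁] at this
    exact this
  · have := hDmono.monotoneOn hpI (hsub hp₂) hp.2
    rw [hDp₂] at this
    exact this

/-- For every large total length the end angles of the paths are `ε`-dense modulo `2π`. -/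
theorem dense (H : TwistData p₀ h g s δ g' δ') (hp₀ : 0 < p₀) {ε : ℝ} (hε : 0 < ε) :
    ∃ T₀ : ℝ, ∀ T ≥ T₀, ∀ ψ : ℝ, ∃ p ∈ Ioo 0 p₀, ∃ (k : ℕ) (m : ℤ),
      2 * k * h p + s p = T ∧ |2 * k * g p + δ p - ψ - 2 * Real.pi * m| ≤ ε := by
  obtain ⟨j, e, p₁, p₂, he0, heε, hp1, h12, hp2, hDe⟩ := H.exists_interval hp₀ hε
  have hsub : Icc p₁ p₂ ⊆ Ioo 0 p₀ := fun x hx =>
    ⟨lt_of_lt_of_le hp1 hx.1, lt_of_le_of_lt hx.2 hp2⟩
  have hhc : ContinuousOn h (Ioo 0 p₀) := fun p hp => (H.hh p hp).continuousAt.continuousWithinAt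
  have hgc : ContinuousOn g (Ioo 0 p₀) := fun p hp => (H.hg p hp).continuousAt.continuousWithinAt
  have hsc : ContinuousOn s (Ioo 0 p₀) := fun p hp => (H.hs p hp).continuousAt.continuousWithinAt
  have hδc : ContinuousOn δ (Ioo 0 p₀) := fun p hp => (H.hδ p hp).continuousAt.continuousWithinAt
  -- the bound B
  have hFc : ContinuousOn (fun p => |δ' p * h p / g' p| + s p) (Icc p₁ p₂) := by
    refine ContinuousOn.add (ContinuousOn.abs ?_) (hsc.mono hsub)
    exact ((H.cδ'.mul hhc).div H.cg' H.hne).mono hsub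
  obtain ⟨B, hB⟩ : ∃ B, ∀ p ∈ Icc p₁ p₂, |δ' p * h p / g' p| + s p ≤ B := by
    obtain ⟨x, -, hx⟩ := isCompact_Icc.exists_isMaxOn (nonempty_Icc.2 h12.le) hFc
    exact ⟨_, fun p hp => hx hp⟩
  -- h p₁ ≠ h p₂
  have hhne : h p₁ ≠ h p₂ := by
    intro heq
    obtain ⟨c, hc, hc0⟩ := exists_hasDerivAt_eq_zero h12 (hhc.mono hsub) heq
      (fun x hx => H.hh x (hsub (Ioo_subset_Icc_self hx)))
    have hcI := hsub (Ioo_subset_Icc_self hc)
    rcases mul_eq_zero.1 hc0 with h0 | h0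
    · exact hcI.1.ne' h0
    · exact H.hne c hcI h0
  have hpos1 := H.hpos p₁ (hsub (left_mem_Icc.2 h12.le))
  have hpos2 := H.hpos p₂ (hsub (right_mem_Icc.2 h12.le))
  set A : ℝ := 1 / (2 * h p₁) - 1 / (2 * h p₂) with hA
  have hAne : A ≠ 0 := by
    intro h0
    apply hhne
    have : 1 / (2 * h p₁) = 1 / (2 * h p₂) := by linarith
    rw [one_div, one_div, inv_inj] at this
    linarith
  set c₀ : ℝ := s p₁ / (2 * h p₁) - s p₂ / (2 * h p₂) with hc₀
  set M : ℝ := max 2 (2 * (2 * Real.pi) / e) with hM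
  -- lower bound on T
  refine ⟨max (B + 1) ((M + |c₀|) / |A|), fun T hT ψ => ?_⟩
  have hTB : B < T := by have := le_of_max_le_left hT; linarith
  have hTA : M + |c₀| ≤ T * |A| := by
    have := le_of_max_le_right hT
    rwa [div_le_iff₀ (abs_pos.2 hAne)] at this
  set κ : ℝ → ℝ := fun p => (T - s p) / (2 * h p) with hκ
  set κ' : ℝ → ℝ := fun p => (-(p * δ' p) * (2 * h p) - (T - s p) * (2 * (p * g' p))) /
    (2 * h p) ^ 2 with hκ'
  set Ψ : ℝ → ℝ := fun p => 2 * κ p * (g p + Real.pi * j) + δ p with hΨ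
  have hκd : ∀ p ∈ Ioo 0 p₀, HasDerivAt κ (κ' p) p := by
    intro p hp
    have h1 : HasDerivAt (fun p => T - s p) (-(p * δ' p)) p := by
      simpa using (H.hs p hp).const_sub T
    have h2 : HasDerivAt (fun p => 2 * h p) (2 * (p * g' p)) p := (H.hh p hp).const_mul 2
    have h3 : 2 * h p ≠ 0 := by have := H.hpos p hp; positivity
    exact h1.div h2 h3
  have hΨd : ∀ p ∈ Ioo 0 p₀, HasDerivAt Ψ
      (κ' p * (2 * (Real.pi * j - (h p / p - g p)))) p := by
    intro p hp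
    have h1 : HasDerivAt (fun p => 2 * κ p) (2 * κ' p) p := (hκd p hp).const_mul 2
    have h2 : HasDerivAt (fun p => g p + Real.pi * j) (g' p) p := (H.hg p hp).add_const _
    have h3 := (h1.mul h2).add (H.hδ p hp)
    refine h3.congr_deriv ?_
    have hhp : h p ≠ 0 := (H.hpos p hp).ne'
    have hp0 : p ≠ 0 := hp.1.ne'
    simp only [hκ, hκ']
    field_simp
    ring
  have hκne : ∀ p ∈ Icc p₁ p₂, κ' p ≠ 0 := by
    intro p hp h0
    have hpI := hsub hp
    have hhp := H.hpos p hpI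
    have hg'p := H.hne p hpI
    have hp0 : 0 < p := hpI.1
    rw [hκ', div_eq_zero_iff] at h0
    rcases h0 with h0 | h0
    · have h1 : (T - s p) * g' p = -(δ' p * h p) := by
        have : 2 * p * ((T - s p) * g' p + δ' p * h p) = 0 := by linarith
        have h2 : (2 * p) ≠ 0 := by positivity
        rcases mul_eq_zero.1 this with h3 | h3
        · exact absurd h3 h2
        · linarith
      have h2 : T - s p = -(δ' p * h p / g' p) := by
        field_simp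
        linarith
      have h3 : T - s p ≤ |δ' p * h p / g' p| := by
        rw [h2]; exact neg_le_abs _
      have := hB p hp
      linarith
    · have : (2 * h p) ^ 2 ≠ 0 := by positivity
      exact this h0
  have hκc : ContinuousOn κ (Ioo 0 p₀) := fun p hp => (hκd p hp).continuousAt.continuousWithinAt
  have hΨc : ContinuousOn Ψ (Ioo 0 p₀) := fun p hp => (hΨd p hp).continuousAt.continuousWithinAt
  -- comparison of increments
  have key : ∀ x ∈ Icc p₁ p₂, ∀ y ∈ Icc p₁ p₂, x < y →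
      |Ψ y - Ψ x| ≤ e * |κ y - κ x| ∧ e / 2 * |κ y - κ x| ≤ |Ψ y - Ψ x| := by
    intro x hx y hy hxy
    have hxysub : Icc x y ⊆ Icc p₁ p₂ := Icc_subset_Icc hx.1 hy.2
    obtain ⟨c, hc, hceq⟩ := exists_ratio_hasDerivAt_eq_ratio_slope κ κ' hxy
      (hκc.mono (hxysub.trans hsub))
      (fun z hz => hκd z (hsub (hxysub (Ioo_subset_Icc_self hz)))) Ψ _
      (hΨc.mono (hxysub.trans hsub))
      (fun z hz => hΨd z (hsub (hxysub (Ioo_subset_Icc_self hz))))
    have hcI : c ∈ Icc p₁ p₂ := hxysub (Ioo_subset_Icc_self hc)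
    have hκc0 := hκne c hcI
    have heq : Ψ y - Ψ x = (κ y - κ x) * (2 * (Real.pi * j - (h c / c - g c))) := by
      have : κ' c * (Ψ y - Ψ x) =
          κ' c * ((κ y - κ x) * (2 * (Real.pi * j - (h c / c - g c)))) := by
        linarith
      exact mul_left_cancel₀ hκc0 this
    obtain ⟨hD1, hD2⟩ := hDe c hcI
    have hD0 : 0 ≤ 2 * (Real.pi * j - (h c / c - g c)) := by linarith
    rw [heq, abs_mul, abs_of_nonneg hD0]
    have habs := abs_nonneg (κ y - κ x)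
    constructor <;> nlinarith
  have key1 : ∀ x ∈ Icc p₁ p₂, ∀ y ∈ Icc p₁ p₂, |Ψ y - Ψ x| ≤ e * |κ y - κ x| := by
    intro x hx y hy
    rcases lt_trichotomy x y with hxy | hxy | hxy
    · exact (key x hx y hy hxy).1
    · simp [hxy]
    · have := (key y hy x hx hxy).1
      rwa [abs_sub_comm, abs_sub_comm (κ x)] at this
  -- the range of κ is long
  have hκrange : M ≤ |κ p₂ - κ p₁| := by
    have : κ p₂ - κ p₁ = -(T * A) + c₀ := by
      simp only [hκ, hA, hc₀]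
      field_simp
      ring
    rw [this]
    have hTpos : 0 ≤ T := by
      have hM2 : 2 ≤ M := le_max_left _ _
      by_contra hcon
      push Not at hcon
      have : T * |A| ≤ 0 := mul_nonpos_of_nonpos_of_nonneg hcon.le (abs_nonneg _)
      have := abs_nonneg c₀
      linarith
    have h1 : |T * A| = T * |A| := by rw [abs_mul, abs_of_nonneg hTpos]
    have h2 : |T * A| - |c₀| ≤ |-(T * A) + c₀| := by
      have := abs_sub_abs_le_abs_sub (T * A) c₀
      rwa [← abs_neg (T * A - c₀), show -(T * A - c₀) = -(T * A) + c₀ by ring] at this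
    linarith
  have hp1I : p₁ ∈ Icc p₁ p₂ := left_mem_Icc.2 h12.le
  have hp2I : p₂ ∈ Icc p₁ p₂ := right_mem_Icc.2 h12.le
  have hΨrange : 2 * Real.pi ≤ |Ψ p₂ - Ψ p₁| := by
    have h1 := (key p₁ hp1I p₂ hp2I h12).2
    have h2 : 2 * (2 * Real.pi) / e ≤ M := le_max_right _ _
    have h3 : e / 2 * (2 * (2 * Real.pi) / e) ≤ e / 2 * |κ p₂ - κ p₁| :=
      mul_le_mul_of_nonneg_left (h2.trans hκrange) (by positivity)
    have h4 : e / 2 * (2 * (2 * Real.pi) / e) = 2 * Real.pi := by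
      field_simp
    linarith
  have hκ2 : 2 ≤ |κ p₂ - κ p₁| := (le_max_left _ _).trans hκrange
  -- choose the target angle
  obtain ⟨m, hm⟩ : ∃ m : ℤ, ψ + 2 * Real.pi * m ∈ uIcc (Ψ p₁) (Ψ p₂) := by
    set a := min (Ψ p₁) (Ψ p₂) with ha
    have hlen : a + 2 * Real.pi ≤ max (Ψ p₁) (Ψ p₂) := by
      have := max_sub_min_eq_abs' (Ψ p₁) (Ψ p₂)
      rw [abs_sub_comm] at this
      linarith
    refine ⟨⌈(a - ψ) / (2 * Real.pi)⌉, ?_⟩
    have h2pi : 0 < 2 * Real.pi := by positivity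
    have h1 := Int.le_ceil ((a - ψ) / (2 * Real.pi))
    have h2 := Int.ceil_lt_add_one ((a - ψ) / (2 * Real.pi))
    rw [div_le_iff₀ h2pi] at h1
    rw [← sub_lt_iff_lt_add, lt_div_iff₀ h2pi] at h2
    constructor
    · change a ≤ _
      linarith
    · change _ ≤ max (Ψ p₁) (Ψ p₂)
      linarith
  have hucc : uIcc p₁ p₂ = Icc p₁ p₂ := uIcc_of_le h12.le
  obtain ⟨x, hx, hxψ⟩ := intermediate_value_uIcc (f := Ψ) (by rw [hucc]; exact hΨc.mono hsub) hm
  rw [hucc] at hx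
  -- choose an endpoint at κ-distance at least one
  obtain ⟨y, hy, hyκ⟩ : ∃ y ∈ Icc p₁ p₂, 1 ≤ |κ y - κ x| := by
    by_contra hcon
    push Not at hcon
    have h1 := hcon p₁ hp1I
    have h2 := hcon p₂ hp2I
    have : |κ p₂ - κ p₁| ≤ |κ p₂ - κ x| + |κ p₁ - κ x| := by
      have := abs_sub_le (κ p₂) (κ x) (κ p₁)
      rwa [abs_sub_comm (κ x)] at this
    linarith
  obtain ⟨k, hk, hkx⟩ : ∃ k : ℤ, (k:ℝ) ∈ uIcc (κ x) (κ y) ∧ |(k:ℝ) - κ x| ≤ 1 := by
    rcases le_total (κ x) (κ y) with hle | hle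
    · refine ⟨⌈κ x⌉, ?_, ?_⟩
      · rw [uIcc_of_le hle]
        rw [abs_of_nonneg (by linarith)] at hyκ
        have := Int.ceil_lt_add_one (κ x)
        exact ⟨Int.le_ceil _, by linarith⟩
      · rw [abs_of_nonneg (by linarith [Int.le_ceil (κ x)])]
        linarith [Int.ceil_lt_add_one (κ x)]
    · refine ⟨⌊κ x⌋, ?_, ?_⟩
      · rw [uIcc_of_ge hle]
        rw [abs_of_nonpos (by linarith)] at hyκ
        have := Int.lt_floor_add_one (κ x)
        exact ⟨by linarith, Int.floor_le _⟩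
      · rw [abs_of_nonpos (by linarith [Int.floor_le (κ x)])]
        linarith [Int.lt_floor_add_one (κ x)]
  have hxysub : uIcc x y ⊆ Icc p₁ p₂ := by
    rw [← hucc]; rw [← hucc] at hx hy; exact uIcc_subset_uIcc hx hy
  obtain ⟨p, hp, hpk⟩ := intermediate_value_uIcc (f := κ) (hκc.mono (hxysub.trans hsub)) hk
  have hpI : p ∈ Icc p₁ p₂ := hxysub hp
  have hpI' := hsub hpI
  have hhp := H.hpos p hpI'
  have hk0 : 0 ≤ k := by
    have h1 : 0 ≤ κ p := by
      have h2 := hB p hpI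
      have h3 := abs_nonneg (δ' p * h p / g' p)
      exact div_nonneg (by linarith) (by positivity)
    rw [hpk] at h1
    exact_mod_cast h1
  obtain ⟨k', rfl⟩ := Int.eq_ofNat_of_zero_le hk0
  refine ⟨p, hpI', k', m - j * k', ?_, ?_⟩
  · have : (T - s p) / (2 * h p) = (k':ℝ) := by
      simpa [hκ] using hpk
    rw [div_eq_iff (by positivity)] at this
    linarith
  · have h1 := key1 x hx p hpI
    have h2 : |κ p - κ x| ≤ 1 := by rw [hpk]; exact hkx
    have h3 : |Ψ p - Ψ x| ≤ ε := by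
      calc |Ψ p - Ψ x| ≤ e * |κ p - κ x| := h1
        _ ≤ e * 1 := mul_le_mul_of_nonneg_left h2 he0.le
        _ ≤ ε := by linarith
    have h4 : Ψ p = 2 * (k':ℝ) * (g p + Real.pi * j) + δ p := by
      have : κ p = (k':ℝ) := by simpa using hpk
      simp only [hΨ, this]
    rw [hxψ, h4] at h3
    have h5 : 2 * (k':ℝ) * g p + δ p - ψ - 2 * Real.pi * ((m - j * k' : ℤ) : ℝ) =
        2 * (k':ℝ) * (g p + Real.pi * j) + δ p - (ψ + 2 * Real.pi * m) := by
      push_cast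
      ring
    rw [h5]
    exact h3

end TwistData

end Pool.Agent.MP_67b65f_an
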