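import Pool.Agent.MP_67b65f_an.Legs
import Pool.Agent.MP_67b65f_an.Twist

open scoped RealInnerProductSpace Topology ContDiff
open Set Filter

namespace Pool.Agent.MP_67b65f_an

/-- Half chord length of a line at distance `p` from the centre of a circle of radius `b`. -/
noncomputable def hc (b p : ℝ) : ℝ := Real.sqrt (b ^ 2 - p ^ 2)

/-- Half angle of the same chord. -/
noncomputable def ha (b p : ℝ) : ℝ := Real.arccos (p / b)

section

variable {b p : ℝ}

lemma hc_arg_pos (hp : 0 < p) (hb : p < b) : 0 < b ^ 2 - p ^ 2 := by nlinarith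

lemma hc_pos (hp : 0 < p) (hb : p < b) : 0 < hc b p := Real.sqrt_pos.2 (hc_arg_pos hp hb)

lemma hc_sq (hp : 0 < p) (hb : p < b) : hc b p ^ 2 = b ^ 2 - p ^ 2 :=
  Real.sq_sqrt (hc_arg_pos hp hb).le

lemma hc_lt {a : ℝ} (hp : 0 < p) (ha' : p < a) (hab : a < b) : hc a p < hc b p := by
  apply Real.sqrt_lt_sqrt (hc_arg_pos hp ha').le
  nlinarith

lemma cos_ha (hp : 0 < p) (hb : p < b) : b * Real.cos (ha b p) = p := by
  have hb0 : 0 < b := hp.trans hb
  rw [ha, Real.cos_arccos]
  · field_simp
  · have : 0 < p / b := div_pos hp hb0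
    linarith
  · rw [div_le_one hb0]; exact hb.le

lemma sin_ha (hp : 0 < p) (hb : p < b) : b * Real.sin (ha b p) = hc b p := by
  have hb0 : 0 < b := hp.trans hb
  rw [ha, Real.sin_arccos, hc]
  have : 1 - (p / b) ^ 2 = (b ^ 2 - p ^ 2) / b ^ 2 := by field_simp
  rw [this, Real.sqrt_div' _ (by positivity), Real.sqrt_sq hb0.le]
  field_simp

lemma sin_ha_pos (hp : 0 < p) (hb : p < b) : 0 < Real.sin (ha b p) := by
  have h1 := sin_ha hp hb
  have h2 := hc_pos hp hb
  have hb0 : 0 < b := hp.trans hb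
  rw [← h1] at h2
  exact (mul_pos_iff_of_pos_left hb0).1 h2

lemma hasDerivAt_hc (hp : 0 < p) (hb : p < b) :
    HasDerivAt (hc b) (p * (-1 / hc b p)) p := by
  have h1 : HasDerivAt (fun p : ℝ => b ^ 2 - p ^ 2) (-(2 * p)) p := by
    simpa using (hasDerivAt_pow 2 p).const_sub (b ^ 2)
  have h2 := h1.sqrt (hc_arg_pos hp hb).ne'
  refine h2.congr_deriv ?_
  have := hc_pos hp hb
  change -(2 * p) / (2 * hc b p) = _
  field_simp

lemma hasDerivAt_ha (hp : 0 < p) (hb : p < b) : HasDerivAt (ha b) (-1 / hc b p) p := by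
  have hb0 : 0 < b := hp.trans hb
  have h1 : HasDerivAt (fun p : ℝ => p / b) (1 / b) p := (hasDerivAt_id p).div_const b
  have hlt : p / b < 1 := (div_lt_one hb0).2 hb
  have hgt : -1 < p / b := by have : 0 < p / b := div_pos hp hb0; linarith
  have h2 := (Real.hasDerivAt_arccos hgt.ne' hlt.ne).comp p h1
  refine h2.congr_deriv ?_
  have : 1 - (p / b) ^ 2 = (b ^ 2 - p ^ 2) / b ^ 2 := by field_simp
  rw [this, Real.sqrt_div' _ (by positivity), Real.sqrt_sq hb0.le]
  have h3 := hc_pos hp hb
  have h4 : Real.sqrt (b ^ 2 - p ^ 2) = hc b p := rfl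
  rw [h4]
  field_simp

lemma ha_nonneg : 0 ≤ ha b p := Real.arccos_nonneg _

lemma ha_le_pi : ha b p ≤ Real.pi := Real.arccos_le_pi _

lemma continuous_hc : Continuous (hc b) := by
  unfold hc; fun_prop

end

lemma continuousOn_inv_hc {b p₀ : ℝ} (hb : p₀ ≤ b) :
    ContinuousOn (fun p => -1 / hc b p) (Ioo 0 p₀) := by
  apply continuousOn_const.div continuous_hc.continuousOn
  intro p hp
  exact (hc_pos hp.1 (hp.2.trans_le hb)).ne'

/-- The twist data of a ball of radius `R`. -/
lemma twistData_ball {R r ρ p₀ : ℝ} (hp₀ : 0 < p₀) (hr : p₀ ≤ r) (hρ : p₀ ≤ ρ) (hR : p₀ ≤ R) :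
    TwistData p₀ (hc R) (ha R) (fun p => hc r p + hc ρ p) (fun p => ha r p + ha ρ p)
      (fun p => -1 / hc R p) (fun p => -1 / hc r p + -1 / hc ρ p) where
  hh p hp := hasDerivAt_hc hp.1 (hp.2.trans_le hR)
  hg p hp := hasDerivAt_ha hp.1 (hp.2.trans_le hR)
  hs p hp := by
    have := (hasDerivAt_hc hp.1 (hp.2.trans_le hr)).add (hasDerivAt_hc hp.1 (hp.2.trans_le hρ))
    exact this.congr_deriv (by ring)
  hδ p hp := (hasDerivAt_ha hp.1 (hp.2.trans_le hr)).add (hasDerivAt_ha hp.1 (hp.2.trans_le hρ))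
  hpos p hp := hc_pos hp.1 (hp.2.trans_le hR)
  hne p hp := by
    have := hc_pos hp.1 (hp.2.trans_le hR)
    exact div_ne_zero (by norm_num) this.ne'
  cg' := continuousOn_inv_hc hR
  cδ' := (continuousOn_inv_hc hr).add (continuousOn_inv_hc hρ)
  unb C := by
    have hR0 : 0 < R := hp₀.trans_le hR
    -- choose p with p < R/2 and R / (2p) > C + π
    set q := min (p₀ / 2) (R / (2 * (|C| + Real.pi + 1))) with hq
    have hden : 0 < |C| + Real.pi + 1 := by positivity
    have hq0 : 0 < q := lt_min (by linarith) (by positivity)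
    have hqp : q < p₀ := (min_le_left _ _).trans_lt (by linarith)
    have hq2 : q ≤ R / 2 := (min_le_left _ _).trans (by linarith)
    refine ⟨q, ⟨hq0, hqp⟩, ?_⟩
    have h1 : R / 2 ≤ hc R q := by
      apply Real.le_sqrt_of_sq_le
      nlinarith
    have h2 : |C| + Real.pi + 1 ≤ hc R q / q := by
      rw [le_div_iff₀ hq0]
      have : q ≤ R / (2 * (|C| + Real.pi + 1)) := min_le_right _ _
      rw [le_div_iff₀ (by positivity)] at this
      linarith
    have h3 : ha R q ≤ Real.pi := ha_le_pi
    have h4 := le_abs_self C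
    linarith

/-- The twist data of a shell with radii `a < R`. -/
lemma twistData_shell {a R r ρ : ℝ} (ha0 : 0 < a) (hr : a < r) (hρ : a < ρ) (hR : a < R) :
    TwistData a (fun p => hc R p - hc a p) (fun p => ha R p - ha a p)
      (fun p => 2 * hc R p - hc r p - hc ρ p) (fun p => 2 * ha R p - ha r p - ha ρ p)
      (fun p => -1 / hc R p - -1 / hc a p)
      (fun p => 2 * (-1 / hc R p) - -1 / hc r p - -1 / hc ρ p) where
  hh p hp := by
    have := (hasDerivAt_hc hp.1 (hp.2.trans hR)).sub (hasDerivAt_hc hp.1 hp.2)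
    exact this.congr_deriv (by ring)
  hg p hp := (hasDerivAt_ha hp.1 (hp.2.trans hR)).sub (hasDerivAt_ha hp.1 hp.2)
  hs p hp := by
    have := (((hasDerivAt_hc hp.1 (hp.2.trans hR)).const_mul 2).sub
      (hasDerivAt_hc hp.1 (hp.2.trans hr))).sub (hasDerivAt_hc hp.1 (hp.2.trans hρ))
    exact this.congr_deriv (by ring)
  hδ p hp := (((hasDerivAt_ha hp.1 (hp.2.trans hR)).const_mul 2).sub
      (hasDerivAt_ha hp.1 (hp.2.trans hr))).sub (hasDerivAt_ha hp.1 (hp.2.trans hρ))
  hpos p hp := by
    have := hc_lt hp.1 hp.2 hR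
    linarith
  hne p hp := by
    have h1 := hc_lt hp.1 hp.2 hR
    have h2 := hc_pos hp.1 hp.2
    have h3 := one_div_lt_one_div_of_lt h2 h1
    have : -1 / hc R p - -1 / hc a p = 1 / hc a p - 1 / hc R p := by ring
    change -1 / hc R p - -1 / hc a p ≠ 0
    rw [this]
    exact (sub_pos.2 h3).ne'
  cg' := (continuousOn_inv_hc hR.le).sub (continuousOn_inv_hc le_rfl)
  cδ' := ((continuousOn_const.mul (continuousOn_inv_hc hR.le)).sub
    (continuousOn_inv_hc hr.le)).sub (continuousOn_inv_hc hρ.le)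
  unb C := by
    set q := min (a / 2) ((R - a) / (|C| + Real.pi + 1)) with hq
    have hden : 0 < |C| + Real.pi + 1 := by positivity
    have hRa : 0 < R - a := by linarith
    have hq0 : 0 < q := lt_min (by linarith) (by positivity)
    have hqa : q < a := (min_le_left _ _).trans_lt (by linarith)
    refine ⟨q, ⟨hq0, hqa⟩, ?_⟩
    have h1 : R - a ≤ hc R q - hc a q := by
      have e1 := hc_sq hq0 (hqa.trans hR)
      have e2 := hc_sq hq0 hqa
      have p1 := hc_pos hq0 (hqa.trans hR)
      have p2 := hc_pos hq0 hqa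
      have l1 : hc R q ≤ R := by
        apply Real.sqrt_le_iff.2
        constructor
        · linarith
        · nlinarith
      have l2 : hc a q ≤ a := by
        apply Real.sqrt_le_iff.2
        constructor
        · linarith
        · nlinarith
      have : (hc R q - hc a q) * (hc R q + hc a q) = (R - a) * (R + a) := by nlinarith
      by_contra hcon
      push Not at hcon
      have hpos : 0 < hc R q - hc a q := by
        have := hc_lt hq0 hqa hR
        linarith
      have : (hc R q - hc a q) * (hc R q + hc a q) < (R - a) * (R + a) := by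
        calc (hc R q - hc a q) * (hc R q + hc a q) ≤ (hc R q - hc a q) * (R + a) := by
              apply mul_le_mul_of_nonneg_left _ hpos.le
              linarith
          _ < (R - a) * (R + a) := by
              apply mul_lt_mul_of_pos_right hcon
              linarith
      linarith
    have h2 : |C| + Real.pi + 1 ≤ (hc R q - hc a q) / q := by
      rw [le_div_iff₀ hq0]
      have : q ≤ (R - a) / (|C| + Real.pi + 1) := min_le_right _ _
      rw [le_div_iff₀ (by positivity)] at this
      linarith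
    have h3 : ha R q ≤ Real.pi := ha_le_pi
    have h3' : 0 ≤ ha a q := ha_nonneg
    have h4 := le_abs_self C
    linarith

end Pool.Agent.MP_67b65f_an
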