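import Pool.Agent.MP_67b65f_an.Dense

open scoped RealInnerProductSpace Topology ContDiff
open Set Filter

namespace Pool.Agent.MP_67b65f_an

variable {n : ℕ}

/-! ### The wall profile -/

/-- The wall profile: `1 - 4 (s - 1)^2` for `s ≤ 5/4`, `(1 - √(1 - s/2))^2` for `s ≥ 3/2`. -/
noncomputable def wall (s : ℝ) : ℝ :=
  (1 - Real.smoothTransition (4 * s - 5)) * (1 - 4 * (s - 1) ^ 2) +
    Real.smoothTransition (4 * s - 5) * (1 - Real.sqrt (1 - s / 2)) ^ 2

lemma wall_of_le {s : ℝ} (hs : s ≤ 5 / 4) : wall s = 1 - 4 * (s - 1) ^ 2 := by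
  rw [wall, Real.smoothTransition.zero_of_nonpos (by linarith)]
  ring

lemma wall_of_ge {s : ℝ} (hs : 3 / 2 ≤ s) : wall s = (1 - Real.sqrt (1 - s / 2)) ^ 2 := by
  rw [wall, Real.smoothTransition.one_of_one_le (by linarith)]
  ring

lemma continuous_wall : Continuous wall := by
  have h := Real.smoothTransition.continuous
  unfold wall
  fun_prop

lemma sqrt_facts {s : ℝ} (hs : 0 ≤ s) :
    0 ≤ Real.sqrt (1 - s / 2) ∧ Real.sqrt (1 - s / 2) ≤ 1 := by
  refine ⟨Real.sqrt_nonneg _, ?_⟩
  exact Real.sqrt_le_iff.2 ⟨by norm_num, by linarith⟩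

lemma wall_le_one {s : ℝ} (hs : 0 ≤ s) : wall s ≤ 1 := by
  rcases le_or_gt s (5 / 4) with h | h
  · rw [wall_of_le h]; nlinarith [sq_nonneg (s - 1)]
  · obtain ⟨h1, h2⟩ := sqrt_facts hs
    have h3 := Real.smoothTransition.nonneg (4 * s - 5)
    have h4 := Real.smoothTransition.le_one (4 * s - 5)
    have h5 : (1 - Real.sqrt (1 - s / 2)) ^ 2 ≤ 1 := by nlinarith
    have h6 : 1 - 4 * (s - 1) ^ 2 ≤ 1 := by nlinarith [sq_nonneg (s - 1)]
    rw [wall]
    nlinarith

lemma wall_lt_one {s : ℝ} (hs : 0 ≤ s) (hs2 : s < 2) (hs1 : s ≠ 1) : wall s < 1 := by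
  rcases le_or_gt s (5 / 4) with h | h
  · rw [wall_of_le h]
    have : 0 < (s - 1) ^ 2 := by
      have : s - 1 ≠ 0 := sub_ne_zero.2 hs1
      positivity
    linarith
  · obtain ⟨h1, h2⟩ := sqrt_facts hs
    have h1' : 0 < Real.sqrt (1 - s / 2) := Real.sqrt_pos.2 (by linarith)
    have h3 := Real.smoothTransition.nonneg (4 * s - 5)
    have h4 := Real.smoothTransition.le_one (4 * s - 5)
    have h5 : (1 - Real.sqrt (1 - s / 2)) ^ 2 < 1 := by nlinarith
    have h6 : 1 - 4 * (s - 1) ^ 2 < 1 := by nlinarith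
    rw [wall]
    rcases h3.eq_or_lt with h7 | h7
    · rw [← h7]; linarith
    · nlinarith

lemma wall_pos {s : ℝ} (hs : 1 / 2 < s) : 0 < wall s := by
  rcases le_or_gt s (5 / 4) with h | h
  · rw [wall_of_le h]; nlinarith
  · have h1 : Real.sqrt (1 - s / 2) < 1 := by
      rw [Real.sqrt_lt' one_pos]; linarith
    have h5 : 0 < (1 - Real.sqrt (1 - s / 2)) ^ 2 := by
      have : 0 < 1 - Real.sqrt (1 - s / 2) := by linarith
      positivity
    rcases le_or_gt (3 / 2) s with h' | h'
    · rw [wall_of_ge h']; exact h5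
    · have h3 := Real.smoothTransition.nonneg (4 * s - 5)
      have h4 := Real.smoothTransition.pos_of_pos (x := 4 * s - 5) (by linarith)
      have h6 := Real.smoothTransition.lt_one_of_lt_one (x := 4 * s - 5) (by linarith)
      have h7 : 0 < 1 - 4 * (s - 1) ^ 2 := by nlinarith
      rw [wall]
      have h8 := mul_pos (sub_pos.2 h6) h7
      have h9 := mul_pos h4 h5
      linarith

lemma contDiffOn_wall : ContDiffOn ℝ ∞ wall (Iio 2) := by
  have h1 : ContDiff ℝ ∞ (fun s : ℝ => Real.smoothTransition (4 * s - 5)) := by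
    exact Real.smoothTransition.contDiff.comp (by fun_prop)
  have h2 : ContDiffOn ℝ ∞ (fun s : ℝ => Real.sqrt (1 - s / 2)) (Iio 2) := by
    apply ContDiffOn.sqrt
    · fun_prop
    · intro s hs
      have : s < 2 := hs
      have : 0 < 1 - s / 2 := by linarith
      exact this.ne'
  unfold wall
  refine ContDiffOn.add ?_ ?_
  · exact ((contDiff_const.sub h1).mul (by fun_prop)).contDiffOn
  · exact h1.contDiffOn.mul ((contDiffOn_const.sub h2).pow 2)

lemma hasDerivAt_wall {s : ℝ} (hs : s < 5 / 4) : HasDerivAt wall (-8 * (s - 1)) s := by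
  have h1 : HasDerivAt (fun s : ℝ => 1 - 4 * (s - 1) ^ 2) (-8 * (s - 1)) s := by
    have := ((((hasDerivAt_id s).sub_const 1).pow 2).const_mul 4).const_sub 1
    refine this.congr_deriv ?_
    simp
    ring
  refine h1.congr_of_eventuallyEq ?_
  filter_upwards [Iio_mem_nhds hs] with x hx
  exact wall_of_le (le_of_lt hx)

/-! ### Coordinates -/

/-- Squared distance to the axis `ℝ e`. -/
noncomputable def rad (e q : E n) : ℝ := ‖q‖ ^ 2 - ⟪e, q⟫ ^ 2

/-- Component orthogonal to `e`. -/
noncomputable def perp (e q : E n) : E n := q - ⟪e, q⟫ • e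

lemma continuous_rad (e : E n) : Continuous (rad e) := by unfold rad; fun_prop

lemma inner_e_perp {e : E n} (he : ‖e‖ = 1) (q : E n) : ⟪e, perp e q⟫ = 0 := by
  rw [perp, inner_sub_right, real_inner_smul_right, real_inner_self_eq_norm_sq, he]; ring

lemma norm_sq_perp {e : E n} (he : ‖e‖ = 1) (q : E n) : ‖perp e q‖ ^ 2 = rad e q := by
  rw [perp, norm_sub_sq_real, norm_smul, he, real_inner_smul_right, rad, real_inner_comm,
    Real.norm_eq_abs, mul_one, sq_abs]
  ring

lemma rad_nonneg {e : E n} (he : ‖e‖ = 1) (q : E n) : 0 ≤ rad e q := by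
  rw [← norm_sq_perp he]; positivity

lemma rad_neg (e q : E n) : rad (-e) q = rad e q := by simp [rad, inner_neg_left]

lemma hasGradientAt_rad {e : E n} (q : E n) : HasGradientAt (rad e) ((2:ℝ) • perp e q) q := by
  rw [hasGradientAt_iff_hasFDerivAt]
  have h1 : HasFDerivAt (fun x : E n => ‖x‖ ^ 2) (2 • (innerSL ℝ q)) q := by
    have := (hasFDerivAt_id (𝕜 := ℝ) q).norm_sq
    simpa using this
  have h2 : HasFDerivAt (fun x : E n => ⟪e, x⟫) (innerSL ℝ e) q := (innerSL ℝ e).hasFDerivAt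
  have h3 := h1.sub (h2.pow 2)
  refine h3.congr_fderiv ?_
  ext y
  simp only [sub_apply, smul_apply, innerSL_apply_apply, InnerProductSpace.toDual_apply_apply,
    perp, real_inner_smul_left, inner_sub_left, smul_eq_mul, nsmul_eq_mul]
  push_cast
  ring

lemma hasGradientAt_height (e q : E n) : HasGradientAt (fun x : E n => ⟪e, x⟫) e q := by
  rw [hasGradientAt_iff_hasFDerivAt]
  exact (innerSL ℝ e).hasFDerivAt

/-! ### The room -/

/-- The ellipsoidal part of the room. -/
def roomA (e : E n) : Set (E n) := {q | rad e q / 2 + (max (|⟪e, q⟫| - 1) 0) ^ 2 < 1}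

/-- The room. -/
def room (e : E n) : Set (E n) := {q | q ∈ roomA e ∧ wall (rad e q) < ⟪e, q⟫ ^ 2}

lemma room_neg (e : E n) : room (-e) = room e := by
  ext q
  simp only [room, roomA, mem_ofPred_eq, rad_neg, inner_neg_left, abs_neg, even_two,
    Even.neg_pow]

lemma isOpen_roomA (e : E n) : IsOpen (roomA e) := by
  have h := continuous_rad e
  exact isOpen_lt (by fun_prop) continuous_const

lemma isOpen_room (e : E n) : IsOpen (room e) := by
  have h := continuous_rad e
  have h2 := continuous_wall.comp h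
  exact (isOpen_roomA e).inter (isOpen_lt h2 (by fun_prop))

lemma rad_lt_two_of_roomA {e q : E n} (h : q ∈ roomA e) : rad e q < 2 := by
  have h1 : rad e q / 2 + (max (|⟪e, q⟫| - 1) 0) ^ 2 < 1 := h
  have h2 := sq_nonneg (max (|⟪e, q⟫| - 1) 0)
  linarith

lemma closure_room {e q : E n} (h : q ∈ closure (room e)) :
    rad e q / 2 + (max (|⟪e, q⟫| - 1) 0) ^ 2 ≤ 1 ∧ wall (rad e q) ≤ ⟪e, q⟫ ^ 2 := by
  have hr := continuous_rad e
  have hw := continuous_wall.comp hr
  have hcl1 : IsClosed {q : E n | rad e q / 2 + (max (|⟪e, q⟫| - 1) 0) ^ 2 ≤ 1} :=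
    isClosed_le (by fun_prop) continuous_const
  have hcl2 : IsClosed {q : E n | wall (rad e q) ≤ ⟪e, q⟫ ^ 2} :=
    isClosed_le hw (by fun_prop)
  have hs1 : room e ⊆ {q : E n | rad e q / 2 + (max (|⟪e, q⟫| - 1) 0) ^ 2 ≤ 1} := by
    intro x hx
    exact le_of_lt (show rad e x / 2 + (max (|⟪e, x⟫| - 1) 0) ^ 2 < 1 from hx.1)
  have hs2 : room e ⊆ {q : E n | wall (rad e q) ≤ ⟪e, q⟫ ^ 2} := by
    intro x hx
    exact le_of_lt (show wall (rad e x) < ⟪e, x⟫ ^ 2 from hx.2)
  exact ⟨closure_minimal hs1 hcl1 h, closure_minimal hs2 hcl2 h⟩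

lemma rad_le_two {e q : E n} (h : q ∈ closure (room e)) : rad e q ≤ 2 := by
  have h1 := (closure_room h).1
  have h2 := sq_nonneg (max (|⟪e, q⟫| - 1) 0)
  linarith

/-! ### Local defining functions -/

/-- Defining function of the upper cap. -/
noncomputable def capFun (e : E n) (q : E n) : ℝ := rad e q / 2 + (⟪e, q⟫ - 1) ^ 2 - 1

/-- Defining function of the wall. -/
noncomputable def wallFun (e : E n) (q : E n) : ℝ := wall (rad e q) - ⟪e, q⟫ ^ 2

lemma hasGradientAt_capFun (e q : E n) :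
    HasGradientAt (capFun e) (perp e q + (2 * (⟪e, q⟫ - 1)) • e) q := by
  rw [hasGradientAt_iff_hasFDerivAt]
  have h1 := (hasGradientAt_rad (e := e) q).hasFDerivAt
  have h2 := (hasGradientAt_height e q).hasFDerivAt
  have h3 := ((h1.mul_const (1 / 2)).add ((h2.sub_const 1).pow 2)).sub_const 1
  have h4 : capFun e = fun x => rad e x * (1 / 2) + (⟪e, x⟫ - 1) ^ 2 - 1 := by
    funext x; simp only [capFun]; ring
  rw [h4]
  refine h3.congr_fderiv ?_
  ext y
  simp only [_root_.add_apply, smul_apply, InnerProductSpace.toDual_apply_apply,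
    real_inner_smul_left, inner_add_left, smul_eq_mul, nsmul_eq_mul]
  push_cast
  ring

lemma hasGradientAt_wallFun {e q : E n} {w : ℝ} (hw : HasDerivAt wall w (rad e q)) :
    HasGradientAt (wallFun e) ((2 * w) • perp e q - (2 * ⟪e, q⟫) • e) q := by
  rw [hasGradientAt_iff_hasFDerivAt]
  have h1 := (hasGradientAt_rad (e := e) q).hasFDerivAt
  have h2 := (hasGradientAt_height e q).hasFDerivAt
  have h3 := (hw.comp_hasFDerivAt q h1).sub (h2.pow 2)
  refine h3.congr_fderiv ?_
  ext y
  simp only [sub_apply, smul_apply, InnerProductSpace.toDual_apply_apply,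
    real_inner_smul_left, inner_sub_left, smul_eq_mul, nsmul_eq_mul]
  push_cast
  ring

lemma contDiff_rad (e : E n) : ContDiff ℝ ∞ (rad e) := by
  unfold rad
  exact (contDiff_id.norm_sq ℝ).sub ((contDiff_const.inner ℝ contDiff_id).pow 2)

lemma contDiff_height (e : E n) : ContDiff ℝ ∞ (fun q : E n => ⟪e, q⟫) :=
  contDiff_const.inner ℝ contDiff_id

lemma contDiff_capFun (e : E n) : ContDiff ℝ ∞ (capFun e) := by
  unfold capFun
  exact (((contDiff_rad e).div_const 2).add (((contDiff_height e).sub contDiff_const).pow 2)).sub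
    contDiff_const

/-- In the region `{z > 0, z > 1 or s > 3/2}` the room is the ellipsoid. -/
lemma mem_room_iff_capFun {e : E n} (he : ‖e‖ = 1) {q : E n} (hz : 0 < ⟪e, q⟫)
    (h : 1 < ⟪e, q⟫ ∨ 3 / 2 < rad e q) : q ∈ room e ↔ capFun e q < 0 := by
  have hrad := rad_nonneg he q
  have habs : |⟪e, q⟫| = ⟪e, q⟫ := abs_of_pos hz
  simp only [room, roomA, mem_ofPred_eq, capFun, habs]
  rcases lt_or_ge 1 ⟪e, q⟫ with h1 | h1
  · rw [max_eq_left (by linarith)]
    constructor
    · rintro ⟨h2, -⟩; linarith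
    · intro h2
      refine ⟨by linarith, ?_⟩
      have := wall_le_one hrad
      nlinarith
  · have h2 : 3 / 2 < rad e q := h.resolve_left (not_lt.2 h1)
    rw [max_eq_right (by linarith), wall_of_ge h2.le]
    constructor
    · rintro ⟨h3, h4⟩
      have h5 : 0 < 1 - rad e q / 2 := by linarith
      obtain ⟨h6, h7⟩ := sqrt_facts hrad
      have h8 : Real.sqrt (1 - rad e q / 2) ^ 2 = 1 - rad e q / 2 := Real.sq_sqrt h5.le
      have h9 : 1 - Real.sqrt (1 - rad e q / 2) < ⟪e, q⟫ := by
        by_contra hcon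
        push Not at hcon
        nlinarith
      nlinarith
    · intro h3
      have h5 : 0 < 1 - rad e q / 2 := by nlinarith [sq_nonneg (⟪e, q⟫ - 1)]
      obtain ⟨h6, h7⟩ := sqrt_facts hrad
      have h8 : Real.sqrt (1 - rad e q / 2) ^ 2 = 1 - rad e q / 2 := Real.sq_sqrt h5.le
      refine ⟨by linarith, ?_⟩
      have h9 : 1 - ⟪e, q⟫ < Real.sqrt (1 - rad e q / 2) := by
        by_contra hcon
        push Not at hcon
        nlinarith
      nlinarith

lemma isDefiningAt_capFun {e : E n} (he : ‖e‖ = 1) {q : E n} (h0 : capFun e q = 0)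
    (hz : 0 < ⟪e, q⟫) (h : 1 < ⟪e, q⟫ ∨ 3 / 2 < rad e q) :
    IsDefiningAt (room e) q (capFun e) := by
  refine ⟨h0, ?_, {x | 0 < ⟪e, x⟫} ∩ ({x | 1 < ⟪e, x⟫} ∪ {x | 3 / 2 < rad e x}), ?_, ?_, ?_, ?_⟩
  · rw [(hasGradientAt_capFun e q).gradient]
    intro hcon
    have h1 : ‖perp e q + (2 * (⟪e, q⟫ - 1)) • e‖ ^ 2 =
        rad e q + 4 * (⟪e, q⟫ - 1) ^ 2 := by
      rw [norm_add_sq_real, norm_sq_perp he, real_inner_smul_right,
        real_inner_comm e (perp e q), inner_e_perp he, norm_smul, he, Real.norm_eq_abs, mul_one,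
        sq_abs]
      ring
    rw [hcon, norm_zero] at h1
    have h2 := rad_nonneg he q
    simp only [capFun] at h0
    nlinarith [sq_nonneg (⟪e, q⟫ - 1)]
  · have hr := continuous_rad e
    exact (isOpen_lt continuous_const (by fun_prop)).inter
      ((isOpen_lt continuous_const (by fun_prop)).union (isOpen_lt continuous_const hr))
  · exact ⟨hz, h⟩
  · exact (contDiff_capFun e).contDiffOn
  · rintro x ⟨hx1, hx2⟩
    exact mem_room_iff_capFun he hx1 hx2

lemma isDefiningAt_wallFun {e : E n} (he : ‖e‖ = 1) {q : E n} (hA : q ∈ roomA e)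
    (h0 : wallFun e q = 0) : IsDefiningAt (room e) q (wallFun e) := by
  have h2 := rad_lt_two_of_roomA hA
  refine ⟨h0, ?_, roomA e, isOpen_roomA e, hA, ?_, ?_⟩
  · have hd : DifferentiableAt ℝ wall (rad e q) :=
      (contDiffOn_wall.contDiffAt (Iio_mem_nhds h2)).differentiableAt (by simp)
    rw [(hasGradientAt_wallFun hd.hasDerivAt).gradient]
    intro hcon
    -- the height must vanish
    have h3 : ⟪e, (2 * deriv wall (rad e q)) • perp e q - (2 * ⟪e, q⟫) • e⟫ = 0 := by
      rw [hcon, inner_zero_right]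
    rw [inner_sub_right, real_inner_smul_right, inner_e_perp he, real_inner_smul_right,
      real_inner_self_eq_norm_sq, he] at h3
    have hz : ⟪e, q⟫ = 0 := by linarith
    have h4 : wall (rad e q) = 0 := by
      simp only [wallFun, hz] at h0
      linarith
    have h5 : rad e q ≤ 1 / 2 := by
      by_contra hcon'
      push Not at hcon'
      have := wall_pos hcon'
      linarith
    have h6 : rad e q = 1 / 2 := by
      rw [wall_of_le (by linarith)] at h4
      have h7 := rad_nonneg he q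
      have h8 : (rad e q - 1 / 2) * (rad e q - 3 / 2) = 0 := by nlinarith
      rcases mul_eq_zero.1 h8 with h9 | h9 <;> linarith
    have h7 : deriv wall (rad e q) = 4 := by
      rw [(hasDerivAt_wall (by rw [h6]; norm_num)).deriv, h6]; norm_num
    rw [h7, hz] at hcon
    have h8 : ‖perp e q‖ ^ 2 = 0 := by
      have : perp e q = 0 := by
        have h9 : (2 * (4:ℝ)) • perp e q = 0 := by simpa using hcon
        rcases smul_eq_zero.1 h9 with h10 | h10
        · norm_num at h10
        · exact h10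
      rw [this, norm_zero]; norm_num
    rw [norm_sq_perp he, h6] at h8
    norm_num at h8
  · unfold wallFun
    refine ContDiffOn.sub ?_ ((contDiff_height e).pow 2).contDiffOn
    exact contDiffOn_wall.comp (contDiff_rad e).contDiffOn
      (fun x hx => rad_lt_two_of_roomA hx)
  · intro x hx
    simp only [room, mem_ofPred_eq, wallFun, sub_neg]
    exact ⟨fun h => h.2, fun h => ⟨hx, h⟩⟩

/-- Description of the boundary points of the room in the upper half space. -/
lemma frontier_room {e : E n} (he : ‖e‖ = 1) {q : E n} (hq : q ∈ frontier (room e))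
    (hz : 0 ≤ ⟪e, q⟫) :
    (q ∈ roomA e ∧ wallFun e q = 0) ∨
      (capFun e q = 0 ∧ 1 ≤ ⟪e, q⟫ ∧ (1 < ⟪e, q⟫ ∨ 3 / 2 < rad e q)) := by
  rw [frontier, (isOpen_room e).interior_eq] at hq
  obtain ⟨hcl, hn⟩ := hq
  obtain ⟨h1, h2⟩ := closure_room hcl
  have hrad := rad_nonneg he q
  by_cases hA : q ∈ roomA e
  · left
    refine ⟨hA, ?_⟩
    have h3 : ¬ wall (rad e q) < ⟪e, q⟫ ^ 2 := fun h => hn ⟨hA, h⟩
    simp only [wallFun]
    linarith
  · right
    have hA' : ¬ rad e q / 2 + (max (|⟪e, q⟫| - 1) 0) ^ 2 < 1 := hA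
    have h3 : rad e q / 2 + (max (|⟪e, q⟫| - 1) 0) ^ 2 = 1 := le_antisymm h1 (not_lt.1 hA')
    rw [abs_of_nonneg hz] at h3
    rcases lt_or_ge 1 ⟪e, q⟫ with h4 | h4
    · rw [max_eq_left (by linarith)] at h3
      exact ⟨by simp only [capFun]; linarith, h4.le, Or.inl h4⟩
    · rw [max_eq_right (by linarith)] at h3
      have h5 : rad e q = 2 := by linarith
      -- near `q` the room satisfies the cap inequality, hence `z = 1`
      have h6 : wall (rad e q) = 1 := by
        rw [h5, wall_of_ge (by norm_num)]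
        norm_num
      have h7 : 1 ≤ ⟪e, q⟫ := by
        rw [h6] at h2
        nlinarith
      have h8 : ⟪e, q⟫ = 1 := le_antisymm h4 h7
      exact ⟨by simp only [capFun, h5, h8]; norm_num, h7, Or.inr (by rw [h5]; norm_num)⟩

end Pool.Agent.MP_67b65f_an
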