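import Pool.Agent.MP_67b65f_an.Room

open scoped RealInnerProductSpace Topology ContDiff
open Set Filter

namespace Pool.Agent.MP_67b65f_an

variable {n : ℕ}

lemma rad_add_smul {e : E n} (he : ‖e‖ = 1) (q : E n) (a : ℝ) : rad e (q + a • e) = rad e q := by
  simp only [rad]
  rw [norm_add_sq_real, inner_add_right, real_inner_smul_right, real_inner_smul_right,
    real_inner_self_eq_norm_sq, norm_smul, he, real_inner_comm, Real.norm_eq_abs, mul_one, sq_abs]
  ring

lemma height_add_smul {e : E n} (he : ‖e‖ = 1) (q : E n) (a : ℝ) :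
    ⟪e, q + a • e⟫ = ⟪e, q⟫ + a := by
  rw [inner_add_right, real_inner_smul_right, real_inner_self_eq_norm_sq, he]; ring

lemma perp_decomp (e q : E n) : q = ⟪e, q⟫ • e + perp e q := by rw [perp]; abel

lemma height_comb {e : E n} (he : ‖e‖ = 1) (q : E n) (a b : ℝ) :
    ⟪e, a • e + b • perp e q⟫ = a := by
  rw [inner_add_right, real_inner_smul_right, real_inner_smul_right, inner_e_perp he,
    real_inner_self_eq_norm_sq, he]; ring

lemma rad_comb {e : E n} (he : ‖e‖ = 1) (q : E n) (a b : ℝ) :
    rad e (a • e + b • perp e q) = b ^ 2 * rad e q := by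
  have h1 : ‖a • e + b • perp e q‖ ^ 2 = a ^ 2 + b ^ 2 * rad e q := by
    rw [norm_add_sq_real, norm_smul, norm_smul, mul_pow, mul_pow, norm_sq_perp he, he,
      real_inner_smul_left, real_inner_smul_right, inner_e_perp he, Real.norm_eq_abs,
      Real.norm_eq_abs, sq_abs, sq_abs]
    ring
  rw [rad, h1, height_comb he]
  ring

lemma mem_room_iff {e q : E n} :
    q ∈ room e ↔ rad e q / 2 + (max (|⟪e, q⟫| - 1) 0) ^ 2 < 1 ∧ wall (rad e q) < ⟪e, q⟫ ^ 2 :=
  Iff.rfl

lemma room_isBounded {e : E n} (he : ‖e‖ = 1) : Bornology.IsBounded (room e) := by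
  refine (Metric.isBounded_ball (x := (0 : E n)) (r := 3)).subset ?_
  intro q hq
  rw [mem_ball_zero_iff]
  have h0 := rad_nonneg he q
  have h1 := (mem_room_iff.1 hq).1
  have h2 := rad_lt_two_of_roomA hq.1
  have h3 : |⟪e, q⟫| < 2 := by
    by_contra hcon
    push Not at hcon
    have h4 : 1 ≤ max (|⟪e, q⟫| - 1) 0 := le_max_of_le_left (by linarith)
    nlinarith
  have h4 : ‖q‖ ^ 2 = rad e q + ⟪e, q⟫ ^ 2 := by rw [rad]; ring
  have h5 : ⟪e, q⟫ ^ 2 < 4 := by
    have := abs_nonneg ⟪e, q⟫
    rw [← sq_abs]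
    nlinarith
  exact lt_of_pow_lt_pow_left₀ 2 (by norm_num) (by linarith)

lemma room_joined {e : E n} (he : ‖e‖ = 1) {q : E n} (hq : q ∈ room e) (hz : 0 ≤ ⟪e, q⟫) :
    JoinedIn (room e) q 0 := by
  obtain ⟨hA, hB⟩ := mem_room_iff.1 hq
  have hs0 := rad_nonneg he q
  have hs2 := rad_lt_two_of_roomA hq.1
  set s := rad e q with hs
  set z := ⟪e, q⟫ with hz'
  set η := (1 - s / 2) / 2 with hη
  have hη0 : 0 < η := by rw [hη]; linarith
  have hη1 : s / 2 + η ^ 2 < 1 := by rw [hη]; nlinarith
  set h := max z (1 + η) with hh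
  have hh1 : 1 + η ≤ h := le_max_right _ _
  have hhz : z ≤ h := le_max_left _ _
  have hhA : s / 2 + (h - 1) ^ 2 < 1 := by
    rcases le_total z (1 + η) with h1 | h1
    · rw [hh, max_eq_right h1]
      linarith [hη1, show (1 + η - 1) ^ 2 = η ^ 2 by ring]
    · rw [hh, max_eq_left h1]
      rw [abs_of_nonneg hz, max_eq_left (by linarith)] at hA
      exact hA
  -- first segment: vertical
  have j1 : JoinedIn (room e) q (q + (h - z) • e) := by
    apply JoinedIn.of_segment_subset
    intro y hy
    rw [segment_eq_image'] at hy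
    obtain ⟨θ, ⟨hθ0, hθ1⟩, rfl⟩ := hy
    have hy' : q + θ • (q + (h - z) • e - q) = q + (θ * (h - z)) • e := by
      rw [add_sub_cancel_left, smul_smul]
    beta_reduce
    rw [hy', mem_room_iff, rad_add_smul he, height_add_smul he]
    have ha0 : 0 ≤ θ * (h - z) := mul_nonneg hθ0 (by linarith)
    have ha1 : θ * (h - z) ≤ h - z := by nlinarith
    constructor
    · have h1 : max (|⟪e, q⟫ + θ * (h - z)| - 1) 0 ≤ h - 1 := by
        rw [abs_of_nonneg (by linarith)]
        apply max_le
        · linarith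
        · linarith
      have h2 : 0 ≤ max (|⟪e, q⟫ + θ * (h - z)| - 1) 0 := le_max_right _ _
      have h3 : (max (|⟪e, q⟫ + θ * (h - z)| - 1) 0) ^ 2 ≤ (h - 1) ^ 2 := by nlinarith
      linarith
    · have : z ^ 2 ≤ (⟪e, q⟫ + θ * (h - z)) ^ 2 := by
        rw [← hz']
        nlinarith
      linarith
  -- second segment: horizontal
  have e2 : q + (h - z) • e = h • e + (1:ℝ) • perp e q := by
    conv_lhs => rw [perp_decomp e q]
    rw [← hz']
    module
  have j2 : JoinedIn (room e) (q + (h - z) • e) (h • e) := by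
    apply JoinedIn.of_segment_subset
    intro y hy
    rw [segment_symm, segment_eq_image'] at hy
    obtain ⟨θ, ⟨hθ0, hθ1⟩, rfl⟩ := hy
    have hy' : h • e + θ • (q + (h - z) • e - h • e) = h • e + θ • perp e q := by
      rw [e2]; module
    beta_reduce
    rw [hy', mem_room_iff, rad_comb he, height_comb he, abs_of_pos (by linarith),
      max_eq_left (by linarith)]
    have h1 : θ ^ 2 * rad e q ≤ s := by
      rw [← hs]
      have h3 : θ ^ 2 ≤ 1 := by nlinarith
      nlinarith
    have h2 : 0 ≤ θ ^ 2 * rad e q := by positivity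
    constructor
    · linarith
    · have := wall_le_one h2
      nlinarith
  -- third segment: down the axis
  have j3 : JoinedIn (room e) (h • e) 0 := by
    apply JoinedIn.of_segment_subset
    intro y hy
    rw [segment_symm, segment_eq_image'] at hy
    obtain ⟨θ, ⟨hθ0, hθ1⟩, rfl⟩ := hy
    have hy' : (0 : E n) + θ • (h • e - 0) = (θ * h) • e + (0:ℝ) • perp e q := by
      module
    beta_reduce
    rw [hy', mem_room_iff, rad_comb he, height_comb he]
    have ha0 : 0 ≤ θ * h := mul_nonneg hθ0 (by linarith)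
    have ha1 : θ * h ≤ h := by nlinarith
    have h1 : max (|θ * h| - 1) 0 ≤ h - 1 := by
      rw [abs_of_nonneg ha0]
      apply max_le
      · linarith
      · linarith
    have h2 : 0 ≤ max (|θ * h| - 1) 0 := le_max_right _ _
    constructor
    · nlinarith
    · rw [wall_of_le (by norm_num)]
      nlinarith [sq_nonneg (θ * h)]
  exact (j1.trans j2).trans j3

lemma zero_mem_room {e : E n} : (0 : E n) ∈ room e := by
  rw [mem_room_iff]
  have h1 : rad e (0 : E n) = 0 := by simp [rad]
  rw [h1, inner_zero_right, wall_of_le (by norm_num)]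
  norm_num

lemma room_isConnected {e : E n} (he : ‖e‖ = 1) : IsConnected (room e) := by
  have hp : IsPathConnected (room e) := by
    refine ⟨0, zero_mem_room, fun {y} hy => ?_⟩
    rcases le_total 0 ⟪e, y⟫ with h | h
    · exact (room_joined he hy h).symm
    · have h1 : ‖-e‖ = 1 := by rw [norm_neg, he]
      have h2 : y ∈ room (-e) := by rw [room_neg]; exact hy
      have h3 : 0 ≤ ⟪-e, y⟫ := by rw [inner_neg_left]; linarith
      have := (room_joined h1 h2 h3).symm
      rwa [room_neg] at this
  exact hp.isConnected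

/-- The room is a bounded domain with smooth boundary. -/
theorem isSmoothDomain_room {e : E n} (he : ‖e‖ = 1) : IsSmoothDomain (room e) where
  isOpen := isOpen_room e
  isConnected := room_isConnected he
  isBounded := room_isBounded he
  smooth := by
    have main : ∀ e : E n, ‖e‖ = 1 → ∀ p ∈ frontier (room e), 0 ≤ ⟪e, p⟫ →
        ∃ f, IsDefiningAt (room e) p f := by
      intro e he p hp hz
      rcases frontier_room he hp hz with ⟨h1, h2⟩ | ⟨h1, h2, h3⟩
      · exact ⟨_, isDefiningAt_wallFun he h1 h2⟩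
      · exact ⟨_, isDefiningAt_capFun he h1 (by linarith) h3⟩
    intro p hp
    rcases le_total 0 ⟪e, p⟫ with h | h
    · exact main e he p hp h
    · have h1 : ‖-e‖ = 1 := by rw [norm_neg, he]
      have h3 : 0 ≤ ⟪-e, p⟫ := by rw [inner_neg_left]; linarith
      have := main (-e) h1 p (by rw [room_neg]; exact hp) h3
      rwa [room_neg] at this

end Pool.Agent.MP_67b65f_an
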