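import Pool.Agent.MP_67b65f_an.RoomDomain

open scoped RealInnerProductSpace Topology ContDiff
open Set Filter

namespace Pool.Agent.MP_67b65f_an

variable {n : ℕ}

/-- The quantity whose sign tells whether the line through `q` with direction `v` crosses the
plane `z = 1` inside or outside the focal sphere. -/
noncomputable def focal (e q v : E n) : ℝ :=
  ‖⟪e, v⟫ • (q - e) - (⟪e, q⟫ - 1) • v‖ ^ 2 - ⟪e, v⟫ ^ 2

lemma focal_line (e q v : E n) (σ : ℝ) : focal e (q + σ • v) v = focal e q v := by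
  simp only [focal, inner_add_right, real_inner_smul_right]
  congr 3
  module

lemma focal_formula {e : E n} (he : ‖e‖ = 1) (q v : E n) :
    focal e q v = (rad e q - 1) * ⟪e, v⟫ ^ 2 -
      2 * (⟪e, q⟫ - 1) * ⟪perp e q, v⟫ * ⟪e, v⟫ +
      (⟪e, q⟫ - 1) ^ 2 * (‖v‖ ^ 2 - ⟪e, v⟫ ^ 2) := by
  have h1 : q - e = perp e q + (⟪e, q⟫ - 1) • e := by rw [perp]; module
  have h2 : ‖q - e‖ ^ 2 = rad e q + (⟪e, q⟫ - 1) ^ 2 := by
    rw [h1, norm_add_sq_real, norm_sq_perp he, real_inner_smul_right,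
      real_inner_comm e (perp e q), inner_e_perp he, norm_smul, he, Real.norm_eq_abs, mul_one,
      sq_abs]
    ring
  have h3 : ⟪q - e, v⟫ = ⟪perp e q, v⟫ + (⟪e, q⟫ - 1) * ⟪e, v⟫ := by
    rw [h1, inner_add_left, real_inner_smul_left]
  rw [focal, norm_sub_sq_real, norm_smul, norm_smul, mul_pow, mul_pow, Real.norm_eq_abs,
    Real.norm_eq_abs, sq_abs, sq_abs, h2, real_inner_smul_left, real_inner_smul_right, h3]
  ring

lemma focal_at_one {e : E n} (he : ‖e‖ = 1) {q : E n} (hq : ⟪e, q⟫ = 1) (v : E n) :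
    focal e q v = (rad e q - 1) * ⟪e, v⟫ ^ 2 := by
  rw [focal_formula he, hq]; ring

/-- The focal quantity is preserved by the reflection in the spheroid. -/
lemma focal_reflect {e : E n} (he : ‖e‖ = 1) {q v ν : E n} (h0 : capFun e q = 0)
    (hν : ν = (‖perp e q + (2 * (⟪e, q⟫ - 1)) • e‖)⁻¹ • (perp e q + (2 * (⟪e, q⟫ - 1)) • e)) :
    focal e q (v - (2 * ⟪v, ν⟫) • ν) = focal e q v := by
  set N : E n := perp e q + (2 * (⟪e, q⟫ - 1)) • e with hN
  set w := ⟪e, q⟫ - 1 with hw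
  set a := rad e q with ha
  have hNn : ‖N‖ ^ 2 = a + 4 * w ^ 2 := by
    rw [hN, norm_add_sq_real, norm_sq_perp he, real_inner_smul_right,
      real_inner_comm e (perp e q), inner_e_perp he, norm_smul, he, Real.norm_eq_abs, mul_one,
      sq_abs]
    ring
  have ha2 : a = 2 - 2 * w ^ 2 := by
    simp only [capFun] at h0
    rw [← ha, ← hw] at h0
    linarith
  have hpos : 0 < 1 + w ^ 2 := by positivity
  have hNn' : ‖N‖ ^ 2 = 2 * (1 + w ^ 2) := by rw [hNn, ha2]; ring
  have hN0 : ‖N‖ ≠ 0 := by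
    intro h
    rw [h] at hNn'
    nlinarith
  set b := ⟪perp e q, v⟫ with hb
  set vz := ⟪e, v⟫ with hvz
  have hvN : ⟪v, N⟫ = b + 2 * w * vz := by
    rw [hN, inner_add_right, real_inner_smul_right, real_inner_comm (perp e q) v,
      real_inner_comm e v]
  set k := 2 * ⟪v, N⟫ / ‖N‖ ^ 2 with hk
  have hk' : k * (1 + w ^ 2) = b + 2 * w * vz := by
    rw [hk, hNn', hvN]
    field_simp
  have hv' : v - (2 * ⟪v, ν⟫) • ν = v - k • N := by
    rw [hν, real_inner_smul_right, smul_smul, hk]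
    congr 2
    field_simp
  have i1 : ⟪e, v - k • N⟫ = vz - 2 * k * w := by
    rw [inner_sub_right, real_inner_smul_right, hN, inner_add_right, inner_e_perp he,
      real_inner_smul_right, real_inner_self_eq_norm_sq, he]
    ring
  have i2 : ⟪perp e q, v - k • N⟫ = b - k * a := by
    rw [inner_sub_right, real_inner_smul_right, hN, inner_add_right, real_inner_smul_right,
      real_inner_self_eq_norm_sq, norm_sq_perp he, real_inner_comm e (perp e q),
      inner_e_perp he]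
    ring
  have i3 : ‖v - k • N‖ ^ 2 = ‖v‖ ^ 2 := by
    rw [norm_sub_sq_real, real_inner_smul_right, norm_smul, mul_pow, Real.norm_eq_abs, sq_abs,
      hvN, hNn']
    linear_combination 2 * k * hk'
  rw [hv', focal_formula he, focal_formula he, i1, i2, i3, ← hw, ← ha, ← hb, ← hvz, ha2]
  linear_combination (-4 * k * w ^ 2) * hk'

/-- The state `(q, v)` is confined: it cannot reach the alcove `0 < z < 1 < s`. -/
def Good (e q v : E n) : Prop :=
  (⟪e, q⟫ < 1 ∧ (rad e q < 1 ∨ ⟪e, q⟫ ≤ 0)) ∨ (1 ≤ ⟪e, q⟫ ∧ focal e q v < 0)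

end Pool.Agent.MP_67b65f_an
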