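import Pool.Agent.MP_67b65f_an.RoomDyn

open scoped RealInnerProductSpace Topology ContDiff
open Set Filter

namespace Pool.Agent.MP_67b65f_an

variable {n : ℕ}

lemma cont_height (e q v : E n) : Continuous (fun σ : ℝ => ⟪e, q + σ • v⟫) := by fun_prop

lemma cont_rad (e q v : E n) : Continuous (fun σ : ℝ => rad e (q + σ • v)) := by
  have h := continuous_rad e
  fun_prop

lemma good_of_height_nonpos {e q v : E n} (h : ⟪e, q⟫ ≤ 0) : Good e q v :=
  Or.inl ⟨by linarith, Or.inr h⟩

lemma good_iff_of_gt_one {e q v : E n} (h : 1 < ⟪e, q⟫) : Good e q v ↔ focal e q v < 0 := by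
  constructor
  · rintro (⟨h1, -⟩ | ⟨-, h1⟩)
    · linarith
    · exact h1
  · intro h1; exact Or.inr ⟨h.le, h1⟩

lemma good_iff_of_mem {e q v : E n} (h0 : 0 < ⟪e, q⟫) (h : ⟪e, q⟫ < 1) :
    Good e q v ↔ rad e q < 1 := by
  constructor
  · rintro (⟨-, h1 | h1⟩ | ⟨h1, -⟩)
    · exact h1
    · linarith
    · linarith
  · intro h1; exact Or.inl ⟨h, Or.inl h1⟩

/-- In the room, confinement is locally constant along a straight line. -/
lemma good_locally_const {e : E n} (he : ‖e‖ = 1) {q v : E n} {σ : ℝ}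
    (hmem : q + σ • v ∈ room e) :
    ∀ᶠ σ' in 𝓝 σ, (Good e (q + σ' • v) v ↔ Good e (q + σ • v) v) := by
  obtain ⟨hA, hB⟩ := mem_room_iff.1 hmem
  have hs0 := rad_nonneg he (q + σ • v)
  have hs2 := rad_lt_two_of_roomA hmem.1
  have ch := cont_height e q v
  have cr := cont_rad e q v
  have hfoc : ∀ σ' : ℝ, focal e (q + σ' • v) v = focal e (q + σ • v) v := by
    intro σ'; rw [focal_line, focal_line]
  rcases lt_trichotomy ⟪e, q + σ • v⟫ 1 with h1 | h1 | h1
  · have e1 : ∀ᶠ σ' in 𝓝 σ, ⟪e, q + σ' • v⟫ < 1 := ch.continuousAt.eventually (gt_mem_nhds h1)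
    rcases lt_trichotomy ⟪e, q + σ • v⟫ 0 with h2 | h2 | h2
    · have e2 : ∀ᶠ σ' in 𝓝 σ, ⟪e, q + σ' • v⟫ < 0 :=
        ch.continuousAt.eventually (gt_mem_nhds h2)
      filter_upwards [e2] with σ' h3
      exact ⟨fun _ => good_of_height_nonpos h2.le, fun _ => good_of_height_nonpos h3.le⟩
    · have h3 : rad e (q + σ • v) < 1 := by
        by_contra hcon
        push Not at hcon
        have := wall_pos (s := rad e (q + σ • v)) (by linarith)
        rw [h2] at hB
        linarith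
      have e2 : ∀ᶠ σ' in 𝓝 σ, rad e (q + σ' • v) < 1 :=
        cr.continuousAt.eventually (gt_mem_nhds h3)
      filter_upwards [e1, e2] with σ' h4 h5
      exact ⟨fun _ => good_of_height_nonpos h2.le, fun _ => Or.inl ⟨h4, Or.inl h5⟩⟩
    · have e2 : ∀ᶠ σ' in 𝓝 σ, 0 < ⟪e, q + σ' • v⟫ :=
        ch.continuousAt.eventually (lt_mem_nhds h2)
      have hne : rad e (q + σ • v) ≠ 1 := by
        intro h3
        rw [h3, wall_of_le (by norm_num)] at hB
        nlinarith
      rcases lt_or_gt_of_ne hne with h3 | h3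
      · have e3 : ∀ᶠ σ' in 𝓝 σ, rad e (q + σ' • v) < 1 :=
          cr.continuousAt.eventually (gt_mem_nhds h3)
        filter_upwards [e1, e2, e3] with σ' h4 h5 h6
        rw [good_iff_of_mem h5 h4, good_iff_of_mem h2 h1]
        exact ⟨fun _ => h3, fun _ => h6⟩
      · have e3 : ∀ᶠ σ' in 𝓝 σ, 1 < rad e (q + σ' • v) :=
          cr.continuousAt.eventually (lt_mem_nhds h3)
        filter_upwards [e1, e2, e3] with σ' h4 h5 h6
        rw [good_iff_of_mem h5 h4, good_iff_of_mem h2 h1]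
        exact ⟨fun h => absurd h (not_lt.2 h6.le), fun h => absurd h (not_lt.2 h3.le)⟩
  · -- height one
    have hK := focal_at_one he h1 v
    have hne : rad e (q + σ • v) ≠ 1 := by
      intro h3
      rw [h3, wall_of_le (by norm_num), h1] at hB
      norm_num at hB
    by_cases hvz : ⟪e, v⟫ = 0
    · refine Eventually.of_forall fun σ' => ?_
      have h2 : ⟪e, q + σ' • v⟫ = 1 := by
        rw [inner_add_right, real_inner_smul_right, hvz] at h1 ⊢
        linarith
      constructor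
      · rintro (⟨h3, -⟩ | ⟨-, h3⟩)
        · linarith
        · rw [hfoc] at h3
          exact Or.inr ⟨h1.ge, h3⟩
      · rintro (⟨h3, -⟩ | ⟨-, h3⟩)
        · linarith
        · exact Or.inr ⟨h2.ge, by rw [hfoc]; exact h3⟩
    · have hvz2 : 0 < ⟪e, v⟫ ^ 2 := by positivity
      rcases lt_or_gt_of_ne hne with h3 | h3
      · have e3 : ∀ᶠ σ' in 𝓝 σ, rad e (q + σ' • v) < 1 :=
          cr.continuousAt.eventually (gt_mem_nhds h3)
        have hK' : focal e (q + σ • v) v < 0 := by rw [hK]; nlinarith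
        filter_upwards [e3] with σ' h4
        refine ⟨fun _ => Or.inr ⟨h1.ge, hK'⟩, fun _ => ?_⟩
        rcases lt_or_ge ⟪e, q + σ' • v⟫ 1 with h5 | h5
        · exact Or.inl ⟨h5, Or.inl h4⟩
        · exact Or.inr ⟨h5, by rw [hfoc]; exact hK'⟩
      · have e2 : ∀ᶠ σ' in 𝓝 σ, 0 < ⟪e, q + σ' • v⟫ :=
          ch.continuousAt.eventually (lt_mem_nhds (by beta_reduce; rw [h1]; norm_num))
        have e3 : ∀ᶠ σ' in 𝓝 σ, 1 < rad e (q + σ' • v) :=
          cr.continuousAt.eventually (lt_mem_nhds h3)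
        have hK' : 0 < focal e (q + σ • v) v := by rw [hK]; nlinarith
        filter_upwards [e2, e3] with σ' h4 h5
        constructor
        · rintro (⟨-, h6 | h6⟩ | ⟨-, h6⟩)
          · linarith
          · linarith
          · rw [hfoc] at h6; linarith
        · rintro (⟨h6, -⟩ | ⟨-, h6⟩)
          · linarith
          · linarith
  · have e1 : ∀ᶠ σ' in 𝓝 σ, 1 < ⟪e, q + σ' • v⟫ := ch.continuousAt.eventually (lt_mem_nhds h1)
    filter_upwards [e1] with σ' h2
    rw [good_iff_of_gt_one h1, good_iff_of_gt_one h2, hfoc]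

/-- A confined state stays confined for a short time. -/
lemma good_start {e : E n} (he : ‖e‖ = 1) {q v : E n} (hcl : q ∈ closure (room e))
    (hg : Good e q v) : ∀ᶠ σ in 𝓝[>] (0:ℝ), Good e (q + σ • v) v := by
  have ch := cont_height e q v
  have cr := cont_rad e q v
  obtain ⟨h1, h2⟩ := closure_room hcl
  have q0 : q + (0:ℝ) • v = q := by rw [zero_smul, add_zero]
  have hfoc : ∀ σ' : ℝ, focal e (q + σ' • v) v = focal e q v := by
    intro σ'; rw [focal_line]
  have main : ∀ᶠ σ in 𝓝 (0:ℝ), Good e (q + σ • v) v := by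
    rcases hg with ⟨h3, h4⟩ | ⟨h3, h4⟩
    · have e1 : ∀ᶠ σ' in 𝓝 (0:ℝ), ⟪e, q + σ' • v⟫ < 1 :=
        ch.continuousAt.eventually (gt_mem_nhds (by beta_reduce; rw [q0]; exact h3))
      by_cases h5 : rad e q < 1
      · have e2 : ∀ᶠ σ' in 𝓝 (0:ℝ), rad e (q + σ' • v) < 1 :=
          cr.continuousAt.eventually (gt_mem_nhds (by beta_reduce; rw [q0]; exact h5))
        filter_upwards [e1, e2] with σ h6 h7
        exact Or.inl ⟨h6, Or.inl h7⟩
      · have h6 : ⟪e, q⟫ ≤ 0 := h4.resolve_left h5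
        have h7 : ⟪e, q⟫ < 0 := by
          rcases h6.eq_or_lt with h8 | h8
          · exfalso
            have := wall_pos (s := rad e q) (by push Not at h5; linarith)
            rw [h8] at h2
            linarith
          · exact h8
        have e2 : ∀ᶠ σ' in 𝓝 (0:ℝ), ⟪e, q + σ' • v⟫ < 0 :=
          ch.continuousAt.eventually (gt_mem_nhds (by beta_reduce; rw [q0]; exact h7))
        filter_upwards [e2] with σ h8
        exact good_of_height_nonpos h8.le
    · rcases h3.eq_or_lt with h5 | h5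
      · -- height one
        have hK := focal_at_one he h5.symm v
        rw [hK] at h4
        have h6 : rad e q < 1 := by
          by_contra hcon
          push Not at hcon
          nlinarith [sq_nonneg ⟪e, v⟫]
        have e2 : ∀ᶠ σ' in 𝓝 (0:ℝ), rad e (q + σ' • v) < 1 :=
          cr.continuousAt.eventually (gt_mem_nhds (by beta_reduce; rw [q0]; exact h6))
        filter_upwards [e2] with σ h7
        rcases lt_or_ge ⟪e, q + σ • v⟫ 1 with h8 | h8
        · exact Or.inl ⟨h8, Or.inl h7⟩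
        · exact Or.inr ⟨h8, by rw [hfoc, hK]; exact h4⟩
      · have e1 : ∀ᶠ σ' in 𝓝 (0:ℝ), 1 < ⟪e, q + σ' • v⟫ :=
          ch.continuousAt.eventually (lt_mem_nhds (by beta_reduce; rw [q0]; exact h5))
        filter_upwards [e1] with σ h6
        exact Or.inr ⟨h6.le, by rw [hfoc]; exact h4⟩
  exact main.filter_mono nhdsWithin_le_nhds

/-- The state at the end of a free segment is confined. -/
lemma good_end {e : E n} (he : ‖e‖ = 1) {q v : E n} {τ : ℝ} (hτ : 0 < τ)
    (hΩ : ∀ σ ∈ Ioo 0 τ, q + σ • v ∈ room e) (hcl : q + τ • v ∈ closure (room e))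
    (hg : ∀ σ ∈ Ioo 0 τ, Good e (q + σ • v) v) : Good e (q + τ • v) v := by
  have ch := cont_height e q v
  have cr := cont_rad e q v
  obtain ⟨h1, h2⟩ := closure_room hcl
  have hs0 := rad_nonneg he (q + τ • v)
  have hfoc : ∀ σ' : ℝ, focal e (q + σ' • v) v = focal e (q + τ • v) v := by
    intro σ'; rw [focal_line, focal_line]
  have hev : ∀ᶠ σ in 𝓝[<] τ, σ ∈ Ioo 0 τ := Ioo_mem_nhdsLT hτ
  have lift : ∀ {p : ℝ → Prop}, (∀ᶠ σ in 𝓝 τ, p σ) → ∀ᶠ σ in 𝓝[<] τ, p σ :=
    fun h => h.filter_mono nhdsWithin_le_nhds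
  rcases lt_trichotomy ⟪e, q + τ • v⟫ 1 with h3 | h3 | h3
  · rcases le_or_gt ⟪e, q + τ • v⟫ 0 with h4 | h4
    · exact good_of_height_nonpos h4
    · have e1 : ∀ᶠ σ' in 𝓝 τ, ⟪e, q + σ' • v⟫ < 1 := ch.continuousAt.eventually (gt_mem_nhds h3)
      have e2 : ∀ᶠ σ' in 𝓝 τ, 0 < ⟪e, q + σ' • v⟫ := ch.continuousAt.eventually (lt_mem_nhds h4)
      have e3 : ∀ᶠ σ in 𝓝[<] τ, rad e (q + σ • v) ≤ 1 := by
        filter_upwards [hev, lift e1, lift e2] with σ h5 h6 h7
        exact ((good_iff_of_mem h7 h6).1 (hg σ h5)).le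
      have h5 : rad e (q + τ • v) ≤ 1 := by
        have ht : Tendsto (fun σ : ℝ => rad e (q + σ • v)) (𝓝[<] τ) (𝓝 (rad e (q + τ • v))) :=
          (cr.tendsto τ).mono_left nhdsWithin_le_nhds
        exact le_of_tendsto ht e3
      have h6 : rad e (q + τ • v) ≠ 1 := by
        intro h7
        rw [h7, wall_of_le (by norm_num)] at h2
        nlinarith
      exact Or.inl ⟨h3, Or.inl (lt_of_le_of_ne h5 h6)⟩
  · -- height one
    have hK := focal_at_one he h3 v
    have hz : ∀ σ : ℝ, ⟪e, q + σ • v⟫ = 1 - (τ - σ) * ⟪e, v⟫ := by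
      intro σ
      rw [inner_add_right, real_inner_smul_right] at h3 ⊢
      linarith
    rcases lt_trichotomy ⟪e, v⟫ 0 with h4 | h4 | h4
    · obtain ⟨σ, hσ⟩ : ∃ σ, σ ∈ Ioo 0 τ := ⟨τ / 2, by constructor <;> linarith⟩
      have h5 : 1 < ⟪e, q + σ • v⟫ := by
        rw [hz]
        have := hσ.2
        nlinarith
      have h6 := (good_iff_of_gt_one h5).1 (hg σ hσ)
      rw [hfoc] at h6
      exact Or.inr ⟨h3.ge, h6⟩
    · obtain ⟨σ, hσ⟩ : ∃ σ, σ ∈ Ioo 0 τ := ⟨τ / 2, by constructor <;> linarith⟩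
      have h5 : ⟪e, q + σ • v⟫ = 1 := by rw [hz, h4]; ring
      rcases hg σ hσ with ⟨h6, -⟩ | ⟨-, h6⟩
      · linarith
      · rw [hfoc] at h6
        exact Or.inr ⟨h3.ge, h6⟩
    · have e1 : ∀ᶠ σ in 𝓝[<] τ, ⟪e, q + σ • v⟫ < 1 := by
        filter_upwards [hev] with σ hσ
        rw [hz]
        have := mul_pos (sub_pos.2 hσ.2) h4
        linarith
      have e2 : ∀ᶠ σ' in 𝓝 τ, 0 < ⟪e, q + σ' • v⟫ :=
        ch.continuousAt.eventually (lt_mem_nhds (by beta_reduce; rw [h3]; norm_num))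
      have e3 : ∀ᶠ σ in 𝓝[<] τ, rad e (q + σ • v) ≤ 1 := by
        filter_upwards [hev, e1, lift e2] with σ h5 h6 h7
        exact ((good_iff_of_mem h7 h6).1 (hg σ h5)).le
      have h5 : rad e (q + τ • v) ≤ 1 := by
        have ht : Tendsto (fun σ : ℝ => rad e (q + σ • v)) (𝓝[<] τ) (𝓝 (rad e (q + τ • v))) :=
          (cr.tendsto τ).mono_left nhdsWithin_le_nhds
        exact le_of_tendsto ht e3
      rcases h5.eq_or_lt with h6 | h6
      · -- the focal sphere cannot be reached from below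
        exfalso
        have hg1 := hasGradientAt_wallFun (e := e) (q := q + τ • v)
          (hasDerivAt_wall (s := rad e (q + τ • v)) (by beta_reduce; rw [h6]; norm_num))
        have hd := hasDerivAt_line hg1 (-v)
        rw [h6, h3] at hd
        have hval : ⟪(2 * (-8 * ((1:ℝ) - 1))) • perp e (q + τ • v) - (2 * (1:ℝ)) • e, -v⟫ =
            2 * ⟪e, v⟫ := by
          rw [inner_neg_right, inner_sub_left, real_inner_smul_left, real_inner_smul_left]
          ring
        rw [hval] at hd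
        have h7 : wallFun e (q + τ • v + (0:ℝ) • -v) = 0 := by
          rw [zero_smul, add_zero, wallFun, h6, h3, wall_of_le (by norm_num)]
          norm_num
        have e4 := eventually_pos_of_hasDerivAt hd h7 (by linarith)
        have e5 : ∀ᶠ t : ℝ in 𝓝[>] 0, t ∈ Ioo 0 τ := Ioo_mem_nhdsGT hτ
        obtain ⟨t, ht1, ht2⟩ := (e4.and e5).exists
        have h8 : q + τ • v + t • -v = q + (τ - t) • v := by module
        rw [h8] at ht1
        have h9 := (mem_room_iff.1 (hΩ (τ - t) ⟨by linarith [ht2.2], by linarith [ht2.1]⟩)).2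
        simp only [wallFun] at ht1
        linarith
      · refine Or.inr ⟨h3.ge, ?_⟩
        rw [hK]
        have : 0 < ⟪e, v⟫ ^ 2 := by positivity
        nlinarith
  · have e1 : ∀ᶠ σ' in 𝓝 τ, 1 < ⟪e, q + σ' • v⟫ := ch.continuousAt.eventually (lt_mem_nhds h3)
    obtain ⟨σ, h4, h5⟩ := (hev.and (lift e1)).exists
    have h6 := (good_iff_of_gt_one h5).1 (hg σ h4)
    rw [hfoc] at h6
    exact Or.inr ⟨h3.le, h6⟩

/-- A free segment in the room starting from a confined state is confined. -/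
lemma good_free {e : E n} (he : ‖e‖ = 1) {q v : E n} {τ : ℝ} (hτ : 0 < τ)
    (hq : q ∈ closure (room e)) (hΩ : ∀ σ ∈ Ioo 0 τ, q + σ • v ∈ room e) (hg : Good e q v) :
    ∀ σ ∈ Ioo 0 τ, Good e (q + σ • v) v := by
  classical
  have hev : ∀ᶠ σ in 𝓝[>] (0:ℝ), σ ∈ Ioo 0 τ := Ioo_mem_nhdsGT hτ
  obtain ⟨σ₀, hσ₀, hg₀⟩ := (hev.and (good_start he hq hg)).exists
  set f : ℝ → Bool := fun σ => decide (Good e (q + σ • v) v) with hf
  have hc : ContinuousOn f (Ioo 0 τ) := by
    intro σ hσ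
    have h1 := good_locally_const he (hΩ σ hσ)
    have h2 : f =ᶠ[𝓝 σ] fun _ => f σ := by
      filter_upwards [h1] with σ' h
      simp only [hf, h]
    exact (continuousAt_const.congr h2.symm).continuousWithinAt
  intro σ hσ
  have h := isPreconnected_Ioo.constant hc hσ hσ₀
  have h3 : f σ₀ = true := by simp only [hf]; exact decide_eq_true hg₀
  rw [h3] at h
  exact of_decide_eq_true h

end Pool.Agent.MP_67b65f_an
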