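import Pool.Agent.MP_67b65f_an.RoomFree

open scoped RealInnerProductSpace Topology ContDiff
open Set Filter

namespace Pool.Agent.MP_67b65f_an

variable {n : ℕ}

lemma good_reflect {e : E n} (he : ‖e‖ = 1) {p v ν : E n} (hp : p ∈ frontier (room e))
    (hg : Good e p v) (hν : IsOuterNormal (room e) p ν) :
    Good e p (v - (2 * ⟪v, ν⟫) • ν) := by
  rcases hg with h | ⟨h1, h2⟩
  · exact Or.inl h
  · rcases frontier_room he hp (by linarith) with ⟨h3, h4⟩ | ⟨h3, -, h5⟩
    · exfalso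
      have hs0 := rad_nonneg he p
      have hs2 := rad_lt_two_of_roomA h3
      have h5 : wall (rad e p) = ⟪e, p⟫ ^ 2 := by simp only [wallFun] at h4; linarith
      have h6 : (1:ℝ) ≤ ⟪e, p⟫ ^ 2 := by nlinarith
      have h7 : rad e p = 1 := by
        by_contra hne
        have := wall_lt_one hs0 hs2 hne
        linarith
      have h8 := wall_le_one hs0
      have h9 : ⟪e, p⟫ = 1 := by nlinarith
      rw [focal_at_one he h9, h7] at h2
      linarith
    · have h6 := hν.eq_of_isDefiningAt (isDefiningAt_capFun he h3 (by linarith) h5)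
      rw [(hasGradientAt_capFun e p).gradient] at h6
      exact Or.inr ⟨h1, by rw [focal_reflect he h3 h6]; exact h2⟩

lemma good_trajectory {e : E n} (he : ‖e‖ = 1) {P v : E n} {T : ℝ} {N : ℕ} {t : ℕ → ℝ}
    {q u : ℕ → E n} (hP : P ∈ room e) (hz : ⟪e, P⟫ ≤ 0)
    (h : IsTrajectory (room e) P v T N t q u) :
    ∀ i ≤ N, q i ∈ closure (room e) ∧ Good e (q i) (u i) := by
  intro i
  induction i with
  | zero =>
    intro _
    rw [h.q_zero]
    exact ⟨subset_closure hP, good_of_height_nonpos hz⟩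
  | succ i ih =>
    intro hi
    have hi' : i < N := hi
    obtain ⟨h1, h2⟩ := ih hi'.le
    have hτ : 0 < t (i + 1) - t i := sub_pos.2 (h.t_lt i hi')
    have hfree : ∀ σ ∈ Ioo 0 (t (i + 1) - t i), q i + σ • u i ∈ room e := by
      intro σ hσ
      have := h.free i hi' (t i + σ) ⟨by linarith [hσ.1], by linarith [hσ.2]⟩
      rwa [add_sub_cancel_left] at this
    have hfr := h.q_mem i hi'
    have hcl : q (i + 1) ∈ closure (room e) := frontier_subset_closure hfr
    have h3 := good_free he hτ h1 hfree h2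
    have hqs := h.q_succ i hi'
    have h4 : Good e (q (i + 1)) (u i) := by
      rw [hqs]
      exact good_end he hτ hfree (by rw [← hqs]; exact hcl) h3
    obtain ⟨ν, hν, -, hu⟩ := h.reflect i hi'
    exact ⟨hcl, by rw [hu]; exact good_reflect he hfr h4 hν⟩

/-- The alcove in the upper half of the room. -/
def alcove (e : E n) : Set (E n) := {q | q ∈ room e ∧ (0 < ⟪e, q⟫ ∧ ⟪e, q⟫ < 1) ∧ 1 < rad e q}

lemma isOpen_alcove (e : E n) : IsOpen (alcove e) := by
  have hr := continuous_rad e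
  have h1 : IsOpen {q : E n | 0 < ⟪e, q⟫} := isOpen_lt continuous_const (by fun_prop)
  have h2 : IsOpen {q : E n | ⟪e, q⟫ < 1} := isOpen_lt (by fun_prop) continuous_const
  have h3 : IsOpen {q : E n | 1 < rad e q} := isOpen_lt continuous_const hr
  exact (isOpen_room e).inter ((h1.inter h2).inter h3)

lemma front_disjoint_alcove {e : E n} (he : ‖e‖ = 1) {P : E n} (hP : P ∈ room e)
    (hz : ⟪e, P⟫ ≤ 0) (T : ℝ) : Disjoint (front (room e) P T) (alcove e) := by
  rw [Set.disjoint_left]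
  rintro X ⟨v, N, t, q, u, -, h, rfl⟩ ⟨-, ⟨hX1, hX2⟩, hX3⟩
  obtain ⟨h1, h2⟩ := good_trajectory he hP hz h N le_rfl
  have hgood : Good e (q N + (T - t N) • u N) (u N) := by
    rcases h.t_le.eq_or_lt with h3 | h3
    · rw [h3, sub_self, zero_smul, add_zero]; exact h2
    · have hτ : 0 < T - t N := sub_pos.2 h3
      have hmem : ∀ σ, 0 < σ → σ ≤ T - t N → q N + σ • u N ∈ room e := by
        intro σ hσ1 hσ2
        have := h.last (t N + σ) ⟨by linarith, by linarith⟩
        rwa [add_sub_cancel_left] at this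
      have hfree : ∀ σ ∈ Ioo 0 (T - t N), q N + σ • u N ∈ room e :=
        fun σ hσ => hmem σ hσ.1 hσ.2.le
      exact good_end he hτ hfree (subset_closure (hmem _ hτ le_rfl)) (good_free he hτ h1 hfree h2)
  rw [good_iff_of_mem hX1 hX2] at hgood
  linarith

lemma alcove_nonempty (hn : 2 ≤ n) {e : E n} (he : ‖e‖ = 1) : (alcove e).Nonempty := by
  have he0 : e ≠ 0 := by rw [← norm_ne_zero_iff, he]; norm_num
  obtain ⟨f, hf, hef⟩ := exists_orthogonal_unit hn e he0
  set a := Real.sqrt (3 / 2) with ha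
  have ha2 : a ^ 2 = 3 / 2 := Real.sq_sqrt (by norm_num)
  have hz : ⟪e, a • f + (3 / 4 : ℝ) • e⟫ = 3 / 4 := by
    rw [inner_add_right, real_inner_smul_right, real_inner_smul_right, hef,
      real_inner_self_eq_norm_sq, he]
    norm_num
  have hrad : rad e (a • f + (3 / 4 : ℝ) • e) = 3 / 2 := by
    have h1 : ‖a • f + (3 / 4 : ℝ) • e‖ ^ 2 = 3 / 2 + (3 / 4) ^ 2 := by
      rw [norm_add_sq_real, norm_smul, norm_smul, mul_pow, mul_pow, hf, he,
        real_inner_smul_left, real_inner_smul_right, real_inner_comm, hef, Real.norm_eq_abs,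
        Real.norm_eq_abs, sq_abs, sq_abs, ha2]
      norm_num
    rw [rad, h1, hz]
    norm_num
  refine ⟨a • f + (3 / 4 : ℝ) • e, ?_, ⟨?_, ?_⟩, ?_⟩
  · rw [mem_room_iff, hrad, hz]
    constructor
    · rw [abs_of_pos (by norm_num), max_eq_right (by norm_num)]
      norm_num
    · rw [wall_of_ge le_rfl]
      have h1 : Real.sqrt (1 - 3 / 2 / 2) = 1 / 2 := by
        rw [show (1:ℝ) - 3 / 2 / 2 = (1 / 2) ^ 2 by norm_num]
        exact Real.sqrt_sq (by norm_num)
      rw [h1]
      norm_num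
  · rw [hz]; norm_num
  · rw [hz]; norm_num
  · rw [hrad]; norm_num

/-- Every point of the room leaves a nonempty open subset of the room dark. -/
theorem room_dark (hn : 2 ≤ n) {e : E n} (he : ‖e‖ = 1) {P : E n} (hP : P ∈ room e) :
    ∃ U : Set (E n), IsOpen U ∧ U.Nonempty ∧ U ⊆ room e ∧
      ∀ T : ℝ, Disjoint (front (room e) P T) U := by
  rcases le_total ⟪e, P⟫ 0 with h | h
  · exact ⟨alcove e, isOpen_alcove e, alcove_nonempty hn he, fun x hx => hx.1,
      front_disjoint_alcove he hP h⟩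
  · have h1 : ‖-e‖ = 1 := by rw [norm_neg, he]
    have h2 : P ∈ room (-e) := by rw [room_neg]; exact hP
    have h3 : ⟪-e, P⟫ ≤ 0 := by rw [inner_neg_left]; linarith
    have h4 := front_disjoint_alcove h1 h2 h3
    rw [room_neg] at h4
    refine ⟨alcove (-e), isOpen_alcove _, alcove_nonempty hn h1, ?_, h4⟩
    intro x hx
    have := hx.1
    rwa [room_neg] at this

lemma not_frontsBecomeDense_of_dark {Ω : Set (E n)} {P : E n} {U : Set (E n)} (hU : IsOpen U)
    (hne : U.Nonempty) (hsub : U ⊆ Ω) (hd : ∀ T : ℝ, Disjoint (front Ω P T) U) :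
    ¬ FrontsBecomeDense Ω P := by
  intro h
  obtain ⟨Q, hQ⟩ := hne
  obtain ⟨ε, hε, hball⟩ := Metric.isOpen_iff.1 hU Q hQ
  obtain ⟨T₀, hT₀⟩ := h ε hε
  obtain ⟨X, hX, hXd⟩ := hT₀ T₀ le_rfl Q (hsub hQ)
  exact Set.disjoint_left.1 (hd T₀) hX (hball hXd)

/-- In every dimension `n ≥ 2` there is a bounded domain with smooth boundary in which the
fronts from no point become dense. -/
theorem exists_dark_domain (hn : 2 ≤ n) :
    ∃ Ω : Set (E n), IsSmoothDomain Ω ∧ ∀ P ∈ Ω, ¬ FrontsBecomeDense Ω P ∧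
      ∃ U : Set (E n), IsOpen U ∧ U.Nonempty ∧ U ⊆ Ω ∧ ∀ T : ℝ, Disjoint (front Ω P T) U := by
  set e : E n := EuclideanSpace.single ⟨0, by omega⟩ 1 with he'
  have he : ‖e‖ = 1 := by rw [he', EuclideanSpace.norm_single]; simp
  refine ⟨room e, isSmoothDomain_room he, fun P hP => ?_⟩
  obtain ⟨U, hU, hne, hsub, hd⟩ := room_dark hn he hP
  exact ⟨not_frontsBecomeDense_of_dark hU hne hsub hd, U, hU, hne, hsub, hd⟩

end Pool.Agent.MP_67b65f_an
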