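import Pool.Agent.MP_67b65f_an.Symmetric

open scoped RealInnerProductSpace Topology ContDiff
open Set Filter

namespace Pool.Agent.MP_67b65f_an

variable {n : ℕ}

/-- Balls are smooth domains, so the theorem on symmetric domains applies to them. -/
theorem isSmoothDomain_ball (c : E n) {R : ℝ} (hR : 0 < R) :
    IsSmoothDomain (Metric.ball c R) where
  isOpen := Metric.isOpen_ball
  isConnected := ⟨⟨c, Metric.mem_ball_self hR⟩, (convex_ball c R).isPreconnected⟩
  isBounded := Metric.isBounded_ball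
  smooth := by
    intro p hp
    rw [frontier_ball c hR.ne', mem_sphere_iff_norm] at hp
    have hpc : p = c + R • ((‖p - c‖)⁻¹ • (p - c)) := by
      rw [smul_smul, hp, mul_inv_cancel₀ hR.ne', one_smul]; abel
    have hw : ‖(‖p - c‖)⁻¹ • (p - c)‖ = 1 := by
      rw [norm_smul, norm_inv, norm_norm, inv_mul_cancel₀]
      rw [hp]; exact hR.ne'
    obtain ⟨-, f, hf, -⟩ := isOuterNormal_sphere hR (Or.inl rfl) hw hpc (near_ball hR p)
    exact ⟨f, hf⟩

/-- The unit disk in the plane. -/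
theorem disk (P : E 2) (hP : P ∈ Metric.ball (0 : E 2) 1) :
    FrontsBecomeDense (Metric.ball (0 : E 2) 1) P ↔ P ≠ 0 := by
  apply symmetric_domains le_rfl (isSmoothDomain_ball 0 one_pos) _ hP
  intro x hx y hy
  rw [Metric.mem_ball] at hx ⊢
  rwa [hy]

/-- Equivalent form of density: every nonempty open subset of `Ω` is met by all late fronts. -/
theorem frontsBecomeDense_iff {Ω : Set (E n)} (hΩ : IsOpen Ω) (hb : Bornology.IsBounded Ω)
    (P : E n) : FrontsBecomeDense Ω P ↔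
      ∀ U : Set (E n), IsOpen U → U.Nonempty → U ⊆ Ω →
        ∃ T₀ : ℝ, ∀ T ≥ T₀, (front Ω P T ∩ U).Nonempty := by
  constructor
  · intro h U hU ⟨Q, hQ⟩ hUΩ
    obtain ⟨ε, hε, hball⟩ := Metric.isOpen_iff.1 hU Q hQ
    obtain ⟨T₀, hT₀⟩ := h ε hε
    refine ⟨T₀, fun T hT => ?_⟩
    obtain ⟨X, hX, hXQ⟩ := hT₀ T hT Q (hUΩ hQ)
    exact ⟨X, hX, hball hXQ⟩
  · intro h
    apply frontsBecomeDense_of_pointwise hb
    intro Q hQ ε hε
    obtain ⟨T₀, hT₀⟩ := h (Metric.ball Q ε ∩ Ω) (Metric.isOpen_ball.inter hΩ)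
      ⟨Q, Metric.mem_ball_self hε, hQ⟩ inter_subset_right
    refine ⟨T₀, fun T hT => ?_⟩
    obtain ⟨X, hX, hXb, -⟩ := hT₀ T hT
    exact ⟨X, hX, hXb⟩

end Pool.Agent.MP_67b65f_an
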