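import Pool.Agent.MP_67b65f_an.Dense

open scoped RealInnerProductSpace Topology ContDiff
open Set Filter

namespace Pool.Agent.MP_67b65f_an

variable {n : ℕ}

lemma IsOuterNormal.unique {Ω : Set (E n)} {p ν ν' : E n}
    (h : IsOuterNormal Ω p ν) (h' : IsOuterNormal Ω p ν') : ν = ν' := by
  obtain ⟨f, hf, -⟩ := h.2
  rw [h.eq_of_isDefiningAt hf, h'.eq_of_isDefiningAt hf]

/-! ### The centre of a ball -/

lemma center_state {c v : E n} {R : ℝ} (hR : 0 < R) (hv : ‖v‖ = 1) {T : ℝ} {N : ℕ}
    {t : ℕ → ℝ} {q u : ℕ → E n} (h : IsTrajectory (Metric.ball c R) c v T N t q u) :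
    ∀ i, i + 1 ≤ N → ∃ w : E n, ‖w‖ = 1 ∧ q (i + 1) = c + R • w ∧ u (i + 1) = -w ∧
      t (i + 1) = (2 * (i + 1 : ℕ) - 1) * R := by
  have hsph : ∀ x ∈ frontier (Metric.ball c R), ‖x - c‖ = R := by
    intro x hx
    rw [frontier_ball c hR.ne', mem_sphere_iff_norm] at hx
    exact hx
  -- the reflection of a velocity `w` at `c + R w`
  have hrefl : ∀ i < N, ∀ w : E n, ‖w‖ = 1 → q (i + 1) = c + R • w → u i = w →
      u (i + 1) = -w := by
    intro i hi w hw hq hu
    obtain ⟨ν, hν, -, hrf⟩ := h.reflect i hi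
    have h1 : IsOuterNormal (Metric.ball c R) (q (i + 1)) ((1:ℝ) • w) :=
      isOuterNormal_sphere hR (Or.inl rfl) hw hq (near_ball hR _)
    have h2 : ν = w := by rw [hν.unique h1, one_smul]
    rw [hrf, h2, hu, real_inner_self_eq_norm_sq, hw]
    module
  intro i
  induction i with
  | zero =>
    intro hi
    have hi' : 0 < N := hi
    have hq := h.q_succ 0 hi'
    rw [h.q_zero, h.u_zero, h.t_zero, sub_zero] at hq
    have ht := h.t_lt 0 hi'
    rw [h.t_zero] at ht
    have hn := hsph _ (h.q_mem 0 hi')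
    rw [hq, add_sub_cancel_left, norm_smul, hv, mul_one, Real.norm_eq_abs, abs_of_pos ht] at hn
    rw [hn] at hq
    exact ⟨v, hv, hq, hrefl 0 hi' v hv hq h.u_zero, by rw [hn]; push_cast; ring⟩
  | succ i ih =>
    intro hi
    obtain ⟨w, hw, hqw, huw, htw⟩ := ih (by omega)
    have hi' : i + 1 < N := by omega
    have hq := h.q_succ (i + 1) hi'
    have ht := h.t_lt (i + 1) hi'
    rw [hqw, huw] at hq
    have hq' : q (i + 1 + 1) = c + (R - (t (i + 1 + 1) - t (i + 1))) • w := by
      rw [hq]; module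
    have hn := hsph _ (h.q_mem (i + 1) hi')
    rw [hq', add_sub_cancel_left, norm_smul, hw, mul_one, Real.norm_eq_abs] at hn
    have hΔ : t (i + 1 + 1) - t (i + 1) = 2 * R := by
      rcases abs_eq hR.le |>.1 hn with h1 | h1 <;> linarith
    rw [hΔ] at hq'
    have hq'' : q (i + 1 + 1) = c + R • (-w) := by rw [hq']; module
    have hnw : ‖-w‖ = 1 := by rw [norm_neg, hw]
    refine ⟨-w, hnw, hq'', hrefl (i + 1) hi' (-w) hnw hq'' huw, ?_⟩
    have : t (i + 1 + 1) = t (i + 1) + 2 * R := by linarith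
    rw [this, htw]
    push_cast
    ring

lemma center_front {c X : E n} {R T : ℝ} (hR : 0 < R) (hX : X ∈ front (Metric.ball c R) c T) :
    ∃ N : ℕ, dist X c = |2 * N * R - T| ∧ |2 * N * R - T| ≤ R := by
  obtain ⟨v, N, t, q, u, hv, h, rfl⟩ := hX
  have hlast : ∀ w : E n, ∀ x : ℝ, ‖w‖ = 1 → (q N + (T - t N) • u N = c + x • w) →
      (T = t N → |x| ≤ R) → dist (q N + (T - t N) • u N) c = |x| ∧ |x| ≤ R := by
    intro w x hw hx hTt
    have h1 : dist (q N + (T - t N) • u N) c = |x| := by
      rw [hx, dist_eq_norm, add_sub_cancel_left, norm_smul, hw, mul_one, Real.norm_eq_abs]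
    refine ⟨h1, ?_⟩
    rcases h.t_le.eq_or_lt with h2 | h2
    · exact hTt h2.symm
    · have h3 := h.last T ⟨h2, le_rfl⟩
      rw [Metric.mem_ball, h1] at h3
      exact h3.le
  rcases Nat.eq_zero_or_pos N with h0 | h0
  · subst h0
    refine ⟨0, ?_⟩
    have := hlast v T hv (by rw [h.q_zero, h.u_zero, h.t_zero, sub_zero]) (by
      intro hT
      rw [hT, h.t_zero, abs_zero]
      exact hR.le)
    have h2 : |2 * ((0:ℕ):ℝ) * R - T| = |T| := by
      rw [Nat.cast_zero, mul_zero, zero_mul, zero_sub, abs_neg]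
    rw [h2]
    exact this
  · obtain ⟨k, rfl⟩ : ∃ k, N = k + 1 := ⟨N - 1, by omega⟩
    obtain ⟨w, hw, hq, hu, ht⟩ := center_state hR hv h k le_rfl
    refine ⟨k + 1, ?_⟩
    have := hlast w (2 * (k + 1 : ℕ) * R - T) hw (by
      rw [hq, hu, ht]
      module) (by
      intro hT
      rw [hT, ht]
      have : 2 * ((k + 1 : ℕ):ℝ) * R - (2 * ((k + 1 : ℕ):ℝ) - 1) * R = R := by ring
      rw [this, abs_of_pos hR])
    exact this

lemma abs_unique {R T : ℝ} {N N' : ℕ} (h : |2 * N * R - T| ≤ R) (h' : |2 * N' * R - T| ≤ R)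
    (hR : 0 < R) (hlt : N < N') : |2 * N * R - T| = R ∧ |2 * N' * R - T| = R := by
  have h1 : (N:ℝ) + 1 ≤ N' := by exact_mod_cast hlt
  have h2 : 2 * (N:ℝ) * R + 2 * R ≤ 2 * N' * R := by nlinarith
  obtain ⟨h3, h4⟩ := abs_le.1 h
  obtain ⟨h5, h6⟩ := abs_le.1 h'
  constructor
  · rw [abs_of_nonpos (by linarith)]; linarith
  · rw [abs_of_nonneg (by linarith)]; linarith

theorem not_frontsBecomeDense_center (hn : 1 ≤ n) {c : E n} {R : ℝ} (hR : 0 < R) :
    ¬ FrontsBecomeDense (Metric.ball c R) c := by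
  intro h
  obtain ⟨T₀, hT₀⟩ := h (R / 4) (by linarith)
  set e : E n := EuclideanSpace.single ⟨0, by omega⟩ 1 with he
  have hen : ‖e‖ = 1 := by rw [he, EuclideanSpace.norm_single]; simp
  have hQ' : dist (c + (3 * R / 4) • e) c = 3 * R / 4 := by
    rw [dist_eq_norm, add_sub_cancel_left, norm_smul, hen, mul_one, Real.norm_eq_abs,
      abs_of_pos (by linarith)]
  obtain ⟨X, hX, hXd⟩ := hT₀ T₀ le_rfl c (Metric.mem_ball_self hR)
  obtain ⟨X', hX', hXd'⟩ := hT₀ T₀ le_rfl (c + (3 * R / 4) • e) (by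
    rw [Metric.mem_ball, hQ']; linarith)
  obtain ⟨N, hN, hN1⟩ := center_front hR hX
  obtain ⟨N', hN', hN1'⟩ := center_front hR hX'
  have hdist : R / 2 < dist X' c := by
    have := dist_triangle_left (c + (3 * R / 4) • e) c X'
    rw [hQ'] at this
    linarith
  rcases lt_trichotomy N N' with hlt | heq | hlt
  · have := abs_unique hN1 hN1' hR hlt
    linarith [this.1, this.2]
  · subst heq
    linarith
  · have := abs_unique hN1' hN1 hR hlt
    linarith [this.1, this.2]

/-! ### Rotationally symmetric domains -/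

/-- Points outside a punctured neighbourhood: an isolated point of the complement is not a
smooth boundary point. -/
lemma not_isDefiningAt_isolated {Ω : Set (E n)} {p : E n} {f : E n → ℝ}
    (h : ∀ᶠ x in 𝓝 p, x ≠ p → x ∈ Ω) : ¬ IsDefiningAt Ω p f := by
  intro hf
  have hg := hf.hasGradientAt
  have h0 := hf.2.1
  have h1 : 0 < ⟪gradient f p, gradient f p⟫ := by
    rw [real_inner_self_eq_norm_sq]
    have := norm_pos_iff.2 h0
    positivity
  have e1 := eventually_pos_of_hasDerivAt (hasDerivAt_line hg (gradient f p))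
    (by simp [hf.1]) h1
  have hcont : Tendsto (fun t : ℝ => p + t • gradient f p) (𝓝[>] 0) (𝓝 p) := by
    have : Continuous (fun t : ℝ => p + t • gradient f p) := by fun_prop
    have h := this.tendsto 0
    simp only [zero_smul, add_zero] at h
    exact h.mono_left nhdsWithin_le_nhds
  have e2 := hcont.eventually h
  have e3 := hcont.eventually hf.eventually
  have e4 : ∀ᶠ t : ℝ in 𝓝[>] 0, 0 < t := self_mem_nhdsWithin
  obtain ⟨t, ht1, ht2, ht3, ht4⟩ := (e1.and (e2.and (e3.and e4))).exists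
  have hne : p + t • gradient f p ≠ p := by
    intro hcon
    rw [add_eq_left] at hcon
    rcases smul_eq_zero.1 hcon with h5 | h5
    · exact ht4.ne' h5
    · exact h0 h5
  have := ht3.1 (ht2 hne)
  linarith

/-- A rotationally symmetric bounded domain with smooth boundary is a ball or a shell. -/
theorem ball_or_shell (hn : 1 ≤ n) {Ω : Set (E n)} (hΩ : IsSmoothDomain Ω) {c : E n}
    (hsym : ∀ x ∈ Ω, ∀ y, dist y c = dist x c → y ∈ Ω) :
    (∃ R, 0 < R ∧ Ω = Metric.ball c R) ∨ (∃ a R, 0 < a ∧ a < R ∧ Ω = shell c a R) := by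
  set e : E n := EuclideanSpace.single ⟨0, by omega⟩ 1 with he
  have hen : ‖e‖ = 1 := by rw [he, EuclideanSpace.norm_single]; simp
  set I : Set ℝ := (fun x => dist x c) '' Ω with hI
  have hdist : ∀ s : ℝ, 0 ≤ s → dist (c + s • e) c = s := by
    intro s hs
    rw [dist_eq_norm, add_sub_cancel_left, norm_smul, hen, mul_one, Real.norm_eq_abs,
      abs_of_nonneg hs]
  have hmemI : ∀ x, x ∈ Ω ↔ dist x c ∈ I := by
    intro x
    constructor
    · intro hx; exact ⟨x, hx, rfl⟩
    · rintro ⟨y, hy, hyx⟩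
      exact hsym y hy x hyx.symm
  have hI0 : ∀ s ∈ I, 0 ≤ s := by
    rintro s ⟨y, -, rfl⟩
    exact dist_nonneg
  have hconn : IsPreconnected I := by
    apply hΩ.isConnected.isPreconnected.image
    exact (by fun_prop : Continuous (fun x : E n => dist x c)).continuousOn
  have hoc : OrdConnected I := hconn.ordConnected
  obtain ⟨x₀, hx₀⟩ := hΩ.isConnected.nonempty
  have hIne : I.Nonempty := ⟨_, (hmemI x₀).1 hx₀⟩
  have hbdd : BddAbove I := by
    obtain ⟨C, hC⟩ := hΩ.isBounded.subset_ball c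
    refine ⟨C, ?_⟩
    rintro s ⟨y, hy, rfl⟩
    exact (hC hy : dist y c < C).le
  have hbdb : BddBelow I := ⟨0, hI0⟩
  -- openness of `I`
  have hopen : ∀ s ∈ I, ∃ δ > 0, ∀ s', 0 ≤ s' → |s' - s| < δ → s' ∈ I := by
    intro s hs
    have hmem : c + s • e ∈ Ω := by rw [hmemI, hdist s (hI0 s hs)]; exact hs
    obtain ⟨δ, hδ, hball⟩ := Metric.isOpen_iff.1 hΩ.isOpen _ hmem
    refine ⟨δ, hδ, fun s' hs' hlt => ?_⟩
    have : c + s' • e ∈ Ω := by
      apply hball
      rw [Metric.mem_ball, dist_add_left, dist_eq_norm, ← sub_smul, norm_smul, hen, mul_one]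
      exact hlt
    rwa [hmemI, hdist s' hs'] at this
  set R := sSup I with hR
  have hRI : R ∉ I := by
    intro h
    obtain ⟨δ, hδ, hh⟩ := hopen R h
    have h1 : R + δ / 2 ∈ I := by
      apply hh
      · linarith [hI0 R h]
      · rw [add_sub_cancel_left, abs_of_pos (by linarith)]; linarith
    have := le_csSup hbdd h1
    linarith
  have hltR : ∀ s ∈ I, s < R := fun s hs =>
    lt_of_le_of_ne (le_csSup hbdd hs) (by rintro rfl; exact hRI hs)
  by_cases hc : c ∈ Ω
  · left
    have h0 : (0:ℝ) ∈ I := by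
      have := (hmemI c).1 hc
      rwa [dist_self] at this
    refine ⟨R, hltR 0 h0, ?_⟩
    ext x
    rw [hmemI, Metric.mem_ball]
    constructor
    · intro h; exact hltR _ h
    · intro h
      obtain ⟨s, hs, hxs⟩ := exists_lt_of_lt_csSup hIne h
      exact hoc.out h0 hs ⟨dist_nonneg, hxs.le⟩
  · right
    have h0 : (0:ℝ) ∉ I := by
      intro h
      apply hc
      rw [hmemI, dist_self]
      exact h
    set a := sInf I with ha
    have ha0 : 0 ≤ a := le_csInf hIne hI0
    have haI : a ∉ I := by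
      intro h
      have hapos : 0 < a := lt_of_le_of_ne ha0 (by intro h1; rw [← h1] at h; exact h0 h)
      obtain ⟨δ, hδ, hh⟩ := hopen a h
      have h1 : a - min (a / 2) (δ / 2) ∈ I := by
        apply hh
        · have := min_le_left (a / 2) (δ / 2)
          linarith
        · have h2 : 0 < min (a / 2) (δ / 2) := lt_min (by linarith) (by linarith)
          have h3 := min_le_right (a / 2) (δ / 2)
          rw [show a - min (a / 2) (δ / 2) - a = -(min (a / 2) (δ / 2)) by ring, abs_neg,
            abs_of_pos h2]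
          linarith
      have h2 := csInf_le hbdb h1
      have h3 : 0 < min (a / 2) (δ / 2) := lt_min (by linarith) (by linarith)
      linarith
    have hlta : ∀ s ∈ I, a < s := fun s hs =>
      lt_of_le_of_ne (csInf_le hbdb hs) (by rintro h; rw [← h] at hs; exact haI hs)
    have hΩeq : Ω = shell c a R := by
      ext x
      rw [hmemI]
      constructor
      · intro h; exact ⟨hlta _ h, hltR _ h⟩
      · rintro ⟨h1, h2⟩
        obtain ⟨s, hs, hxs⟩ := exists_lt_of_lt_csSup hIne h2
        obtain ⟨s', hs', hxs'⟩ := exists_lt_of_csInf_lt hIne h1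
        exact hoc.out hs' hs ⟨hxs'.le, hxs.le⟩
    obtain ⟨s₀, hs₀⟩ := hIne
    have haR : a < R := (hlta s₀ hs₀).trans (hltR s₀ hs₀)
    rcases ha0.eq_or_lt with h1 | h1
    · -- punctured ball is not smooth
      exfalso
      have hR0 : 0 < R := by rw [← h1] at haR; exact haR
      have hnear : ∀ᶠ x in 𝓝 c, x ≠ c → x ∈ Ω := by
        filter_upwards [Metric.ball_mem_nhds c hR0] with x hx hxc
        rw [hΩeq]
        exact ⟨by rw [← h1]; exact dist_pos.2 hxc, hx⟩
      have hfr : c ∈ frontier Ω := by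
        rw [frontier, hΩ.isOpen.interior_eq]
        refine ⟨?_, hc⟩
        have hcc : Tendsto (fun t : ℝ => c + t • e) (𝓝[>] 0) (𝓝 c) := by
          have : Continuous (fun t : ℝ => c + t • e) := by fun_prop
          have h := this.tendsto 0
          simp only [zero_smul, add_zero] at h
          exact h.mono_left nhdsWithin_le_nhds
        refine mem_closure_of_tendsto hcc ?_
        have e2 := hcc.eventually hnear
        filter_upwards [e2, self_mem_nhdsWithin] with t ht htpos
        apply ht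
        have htpos' : (0:ℝ) < t := htpos
        rw [← dist_pos, hdist t htpos'.le]
        exact htpos'
      obtain ⟨f, hf⟩ := hΩ.smooth c hfr
      exact not_isDefiningAt_isolated hnear hf
    · exact ⟨a, R, h1, haR, hΩeq⟩

/-- Rotationally symmetric domains: the fronts from `P` become dense iff `P` is not the centre. -/
theorem symmetric_domains (hn : 2 ≤ n) {Ω : Set (E n)} (hΩ : IsSmoothDomain Ω) {c : E n}
    (hsym : ∀ x ∈ Ω, ∀ y, dist y c = dist x c → y ∈ Ω) {P : E n} (hP : P ∈ Ω) :
    FrontsBecomeDense Ω P ↔ P ≠ c := by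
  rcases ball_or_shell (by omega) hΩ hsym with ⟨R, hR, rfl⟩ | ⟨a, R, ha0, haR, rfl⟩
  · constructor
    · rintro h rfl
      exact not_frontsBecomeDense_center (by omega) hR h
    · exact frontsBecomeDense_ball hn hP
  · constructor
    · rintro - rfl
      have := hP.1
      rw [dist_self] at this
      linarith
    · intro _
      exact frontsBecomeDense_shell hn ha0 hP

end Pool.Agent.MP_67b65f_an
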